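import Pool.Agent.TH924.PC.Asym

set_option autoImplicit false

/-!
The second moment of the number of the primes `p` for which a parameter lies in a set of classes
modulo `p`.
-/

namespace Pool.Agent.TH924.PC

open Finset

lemma count_upper {a b : ℤ} (hab : a ≤ b) {m : ℕ} (hm : 0 < m) (v : ℤ) :
    (((Ico a b).filter (fun x => x ≡ v [ZMOD m])).card : ℝ) ≤ (b - a) / m + 1 := by
  have hm' : (0 : ℤ) < m := by exact_mod_cast hm
  have hm'' : (0 : ℚ) < m := by exact_mod_cast hm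
  have h := Int.Ico_filter_modEq_card a b hm' v
  have h1 : ((((Ico a b).filter (fun x => x ≡ v [ZMOD m])).card : ℤ) : ℚ) ≤ (b - a) / m + 1 := by
    rw [h]
    push_cast
    rw [max_le_iff]
    constructor
    · have h2 := Int.ceil_lt_add_one ((b - v : ℚ) / m)
      have h3 := Int.le_ceil ((a - v : ℚ) / m)
      have h4 : (b - a : ℚ) / m = (b - v) / m - (a - v) / m := by ring
      rw [h4]
      linarith
    · have : (0 : ℚ) ≤ b - a := by
        have : (a : ℚ) ≤ b := by exact_mod_cast hab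
        linarith
      positivity
  have h2 : ((((Ico a b).filter (fun x => x ≡ v [ZMOD m])).card : ℚ) : ℝ) ≤
      (((b - a) / m + 1 : ℚ) : ℝ) := by exact_mod_cast h1
  push_cast at h2
  exact h2

lemma count_lower {a b : ℤ} {m : ℕ} (hm : 0 < m) (v : ℤ) :
    ((b - a : ℝ) / m - 1) ≤ (((Ico a b).filter (fun x => x ≡ v [ZMOD m])).card : ℝ) := by
  have hm' : (0 : ℤ) < m := by exact_mod_cast hm
  have hm'' : (0 : ℚ) < m := by exact_mod_cast hm
  have h := Int.Ico_filter_modEq_card a b hm' v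
  have h1 : (b - a : ℚ) / m - 1 ≤ ((((Ico a b).filter (fun x => x ≡ v [ZMOD m])).card : ℤ) : ℚ) := by
    rw [h]
    push_cast
    refine le_trans ?_ (le_max_left _ _)
    have h2 := Int.le_ceil ((b - v : ℚ) / m)
    have h3 := Int.ceil_lt_add_one ((a - v : ℚ) / m)
    have h4 : (b - a : ℚ) / m = (b - v) / m - (a - v) / m := by ring
    rw [h4]
    linarith
  have h2 : (((b - a) / m - 1 : ℚ) : ℝ) ≤
      ((((Ico a b).filter (fun x => x ≡ v [ZMOD m])).card : ℚ) : ℝ) := by exact_mod_cast h1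
  push_cast at h2
  exact h2

/-- the parameters in a class -/
lemma cls_eq {p : ℕ} (hp : 0 < p) (I : Finset ℤ) (t : ZMod p) :
    I.filter (fun q : ℤ => (q : ZMod p) = t) = I.filter (fun q => q ≡ (t.cast : ℤ) [ZMOD p]) := by
  have : NeZero p := ⟨hp.ne'⟩
  refine filter_congr fun q _ => ?_
  rw [← ZMod.intCast_eq_intCast_iff, ZMod.intCast_zmod_cast]

lemma one_lower {a b : ℤ} {p : ℕ} (hp : 0 < p) (T : Finset (ZMod p)) :
    (T.card : ℝ) * ((b - a) / p - 1) ≤ (((Ico a b).filter (fun q : ℤ => (q : ZMod p) ∈ T)).card : ℝ) := by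
  have h : ((Ico a b).filter (fun q : ℤ => (q : ZMod p) ∈ T)).card =
      ∑ t ∈ T, ((Ico a b).filter (fun q : ℤ => (q : ZMod p) = t)).card := by
    rw [card_eq_sum_card_fiberwise (f := fun q : ℤ => (q : ZMod p)) (t := T)]
    · refine sum_congr rfl fun t ht => ?_
      congr 1
      ext q
      simp only [mem_filter]
      constructor
      · rintro ⟨⟨h1, _⟩, h3⟩; exact ⟨h1, h3⟩
      · rintro ⟨h1, h3⟩; exact ⟨⟨h1, h3 ▸ ht⟩, h3⟩
    · intro q hq
      exact (mem_filter.1 hq).2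
  rw [h, Nat.cast_sum, ← nsmul_eq_mul, ← sum_const]
  refine sum_le_sum fun t _ => ?_
  rw [cls_eq hp]
  exact count_lower hp _

lemma two_upper {a b : ℤ} (hab : a ≤ b) {p p' : ℕ} (hp : p.Prime) (hp' : p'.Prime) (hne : p ≠ p')
    (T : Finset (ZMod p)) (T' : Finset (ZMod p')) :
    (((Ico a b).filter (fun q : ℤ => (q : ZMod p) ∈ T ∧ (q : ZMod p') ∈ T')).card : ℝ) ≤
      (T.card : ℝ) * T'.card * ((b - a) / (p * p') + 1) := by
  classical
  have h : ((Ico a b).filter (fun q : ℤ => (q : ZMod p) ∈ T ∧ (q : ZMod p') ∈ T')).card =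
      ∑ t ∈ T ×ˢ T', ((Ico a b).filter (fun q : ℤ => (q : ZMod p) = t.1 ∧ (q : ZMod p') = t.2)).card := by
    rw [card_eq_sum_card_fiberwise (f := fun q : ℤ => ((q : ZMod p), (q : ZMod p'))) (t := T ×ˢ T')]
    · refine sum_congr rfl fun t ht => ?_
      rw [mem_product] at ht
      congr 1
      ext q
      simp only [mem_filter, Prod.ext_iff]
      constructor
      · rintro ⟨⟨h1, _⟩, h3⟩; exact ⟨h1, h3⟩
      · rintro ⟨h1, h3⟩; exact ⟨⟨h1, h3.1 ▸ ht.1, h3.2 ▸ ht.2⟩, h3⟩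
    · intro q hq
      have := (mem_filter.1 hq).2
      exact mem_product.2 this
  rw [h, Nat.cast_sum]
  have h2 : ∀ t ∈ T ×ˢ T', (((Ico a b).filter
      (fun q : ℤ => (q : ZMod p) = t.1 ∧ (q : ZMod p') = t.2)).card : ℝ) ≤ (b - a) / (p * p') + 1 := by
    intro t _
    have hpp : 0 < p * p' := Nat.mul_pos hp.pos hp'.pos
    rcases ((Ico a b).filter
      (fun q : ℤ => (q : ZMod p) = t.1 ∧ (q : ZMod p') = t.2)).eq_empty_or_nonempty with h0 | ⟨v, hv⟩
    · rw [h0, card_empty, Nat.cast_zero]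
      have h1 : (0 : ℝ) ≤ b - a := by
        have : (a : ℝ) ≤ b := by exact_mod_cast hab
        linarith
      have h2 : (0 : ℝ) < (p : ℝ) * p' := by exact_mod_cast hpp
      have := div_nonneg h1 h2.le
      linarith
    · have hv' := (mem_filter.1 hv).2
      have h3 : (Ico a b).filter (fun q : ℤ => (q : ZMod p) = t.1 ∧ (q : ZMod p') = t.2) ⊆
          (Ico a b).filter (fun x => x ≡ v [ZMOD ((p * p' : ℕ) : ℤ)]) := by
        intro q hq
        rw [mem_filter] at hq ⊢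
        refine ⟨hq.1, ?_⟩
        have h4 : q ≡ v [ZMOD (p : ℤ)] := by
          rw [← ZMod.intCast_eq_intCast_iff, hq.2.1, hv'.1]
        have h5 : q ≡ v [ZMOD (p' : ℤ)] := by
          rw [← ZMod.intCast_eq_intCast_iff, hq.2.2, hv'.2]
        push_cast
        rw [← Int.modEq_and_modEq_iff_modEq_mul]
        · exact ⟨h4, h5⟩
        · rw [Int.natAbs_natCast, Int.natAbs_natCast]
          exact (Nat.coprime_primes hp hp').2 hne
      have h4 : (((Ico a b).filter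
          (fun q : ℤ => (q : ZMod p) = t.1 ∧ (q : ZMod p') = t.2)).card : ℝ) ≤
          (((Ico a b).filter (fun x => x ≡ v [ZMOD ((p * p' : ℕ) : ℤ)])).card : ℝ) := by
        exact_mod_cast card_le_card h3
      have h5 := count_upper hab hpp v
      push_cast at h4 h5
      exact h4.trans h5
  refine (sum_le_sum h2).trans ?_
  rw [sum_const, card_product, nsmul_eq_mul]
  push_cast
  exact le_rfl

lemma fin_calc {S₂ S₁ μ J c Q : ℝ} (hc : 0 ≤ c) (hμ0 : 0 ≤ μ) (hμ1 : μ ≤ c) (hQ : Q ≤ Q ^ 2)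
    (h2 : S₂ ≤ μ ^ 2 * J + c ^ 2 * Q ^ 2 + c * J) (h1 : μ * J - c * Q ≤ S₁) :
    S₂ - 2 * μ * S₁ + μ ^ 2 * J ≤ c * J + 3 * c ^ 2 * Q ^ 2 := by
  have h3 : 2 * μ * (μ * J - c * Q) ≤ 2 * μ * S₁ := mul_le_mul_of_nonneg_left h1 (by positivity)
  have h4 : 2 * μ * (c * Q) ≤ 2 * μ * (c * Q ^ 2) :=
    mul_le_mul_of_nonneg_left (mul_le_mul_of_nonneg_left hQ hc) (by positivity)
  have h5 : 2 * μ * (c * Q ^ 2) ≤ 2 * c * (c * Q ^ 2) :=
    mul_le_mul_of_nonneg_right (by linarith) (by positivity)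
  have e1 : 2 * μ * (μ * J - c * Q) = 2 * (μ ^ 2 * J) - 2 * μ * (c * Q) := by ring
  have e2 : 2 * c * (c * Q ^ 2) = 2 * (c ^ 2 * Q ^ 2) := by ring
  rw [e1] at h3
  rw [e2] at h5
  have e3 : 3 * c ^ 2 * Q ^ 2 = 3 * (c ^ 2 * Q ^ 2) := by ring
  rw [e3]
  linarith

/-- The second moment. -/
lemma variance {a b : ℤ} (hab : a ≤ b) {P : Finset ℕ} (hP : ∀ p ∈ P, p.Prime) {Q : ℕ}
    (hQ : ∀ p ∈ P, p ≤ Q) (T : (p : ℕ) → Finset (ZMod p)) (hT : ∀ p ∈ P, (T p).card ≤ p) :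
    ∑ q ∈ Ico a b, ((((P.filter fun p => (q : ZMod p) ∈ T p).card : ℕ) : ℝ) -
      ∑ p ∈ P, ((T p).card : ℝ) / p) ^ 2 ≤
      (P.card : ℝ) * (b - a) + 3 * (P.card : ℝ) ^ 2 * (Q : ℝ) ^ 2 := by
  classical
  set J : ℝ := (b - a : ℝ) with hJ
  have hJ0 : 0 ≤ J := by
    have : (a : ℝ) ≤ b := by exact_mod_cast hab
    rw [hJ]; linarith
  have hcardI : (((Ico a b).card : ℕ) : ℝ) = J := by
    rw [Int.card_Ico, hJ]
    have h1 : (((b - a).toNat : ℕ) : ℤ) = b - a := Int.toNat_of_nonneg (by linarith)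
    exact_mod_cast h1
  set f : ℕ → ℤ → ℝ := fun p q => if (q : ZMod p) ∈ T p then 1 else 0 with hf
  set ω : ℕ → ℝ := fun p => ((T p).card : ℝ) / p with hω
  set μ := ∑ p ∈ P, ω p with hμ
  have hp0 : ∀ p ∈ P, (0 : ℝ) < p := fun p hp => by exact_mod_cast (hP p hp).pos
  have hω0 : ∀ p ∈ P, 0 ≤ ω p := fun p hp => div_nonneg (Nat.cast_nonneg _) (hp0 p hp).le
  have hω1 : ∀ p ∈ P, ω p ≤ 1 := fun p hp => by
    rw [hω]
    show ((T p).card : ℝ) / p ≤ 1
    rw [div_le_one (hp0 p hp)]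
    exact_mod_cast hT p hp
  have hF : ∀ q : ℤ, (((P.filter fun p => (q : ZMod p) ∈ T p).card : ℕ) : ℝ) = ∑ p ∈ P, f p q := by
    intro q
    rw [card_filter, Nat.cast_sum]
    refine sum_congr rfl fun p _ => ?_
    rw [hf]
    simp
  -- first moment
  have hone : ∀ p ∈ P, ω p * J - Q ≤ ∑ q ∈ Ico a b, f p q := by
    intro p hp
    have h1 := one_lower (a := a) (b := b) (hP p hp).pos (T p)
    have h2 : ∑ q ∈ Ico a b, f p q = (((Ico a b).filter (fun q : ℤ => (q : ZMod p) ∈ T p)).card : ℝ) := by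
      rw [hf, sum_boole]
    rw [h2]
    refine le_trans ?_ h1
    have h3 : ((T p).card : ℝ) ≤ Q := by
      have : (T p).card ≤ Q := (hT p hp).trans (hQ p hp)
      exact_mod_cast this
    have h4 : ω p * J = ((T p).card : ℝ) * (J / p) := by rw [hω]; ring
    rw [h4, ← hJ, mul_sub, mul_one]
    linarith
  have hS1 : μ * J - P.card * Q ≤ ∑ q ∈ Ico a b, ∑ p ∈ P, f p q := by
    rw [sum_comm]
    refine le_trans (le_of_eq ?_) (sum_le_sum hone)
    rw [sum_sub_distrib, ← sum_mul, sum_const, nsmul_eq_mul]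
  -- second moment
  have htwo : ∀ p ∈ P, ∀ p' ∈ P, ∑ q ∈ Ico a b, f p q * f p' q ≤
      ω p * ω p' * J + (Q : ℝ) ^ 2 + if p = p' then J else 0 := by
    intro p hp p' hp'
    split_ifs with h
    · subst h
      have h1 : ∑ q ∈ Ico a b, f p q * f p q ≤ ∑ q ∈ Ico a b, (1 : ℝ) := by
        refine sum_le_sum fun q _ => ?_
        rw [hf]
        show (if (q : ZMod p) ∈ T p then (1 : ℝ) else 0) * (if (q : ZMod p) ∈ T p then (1 : ℝ) else 0) ≤ 1
        split_ifs <;> norm_num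
      rw [sum_const, nsmul_eq_mul, mul_one, hcardI] at h1
      have h2 : 0 ≤ ω p * ω p * J := mul_nonneg (mul_nonneg (hω0 p hp) (hω0 p hp)) hJ0
      have h3 : (0 : ℝ) ≤ (Q : ℝ) ^ 2 := sq_nonneg _
      linarith
    · have h1 := two_upper hab (hP p hp) (hP p' hp') h (T p) (T p')
      have h2 : ∑ q ∈ Ico a b, f p q * f p' q =
          (((Ico a b).filter (fun q : ℤ => (q : ZMod p) ∈ T p ∧ (q : ZMod p') ∈ T p')).card : ℝ) := by
        rw [card_filter, Nat.cast_sum]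
        refine sum_congr rfl fun q _ => ?_
        rw [hf]
        show (if (q : ZMod p) ∈ T p then (1 : ℝ) else 0) * (if (q : ZMod p') ∈ T p' then (1 : ℝ) else 0) = _
        by_cases ha : (q : ZMod p) ∈ T p <;> by_cases hb : (q : ZMod p') ∈ T p' <;> simp [ha, hb]
      rw [h2]
      refine h1.trans ?_
      have h3 : ((T p).card : ℝ) ≤ Q := by
        have : (T p).card ≤ Q := (hT p hp).trans (hQ p hp)
        exact_mod_cast this
      have h3' : ((T p').card : ℝ) ≤ Q := by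
        have : (T p').card ≤ Q := (hT p' hp').trans (hQ p' hp')
        exact_mod_cast this
      have h4 : ((T p).card : ℝ) * (T p').card ≤ Q * Q :=
        mul_le_mul h3 h3' (Nat.cast_nonneg _) (Nat.cast_nonneg _)
      have h5 : ω p * ω p' * J = ((T p).card : ℝ) * (T p').card * (J / (p * p')) := by
        rw [hω]
        show ((T p).card : ℝ) / p * (((T p').card : ℝ) / p') * J = _
        have := hp0 p hp
        have := hp0 p' hp'
        field_simp
      rw [h5, ← hJ]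
      nlinarith
  have hS2 : ∑ q ∈ Ico a b, (∑ p ∈ P, f p q) ^ 2 ≤
      μ ^ 2 * J + (P.card : ℝ) ^ 2 * (Q : ℝ) ^ 2 + P.card * J := by
    have h1 : ∑ q ∈ Ico a b, (∑ p ∈ P, f p q) ^ 2 =
        ∑ p ∈ P, ∑ p' ∈ P, ∑ q ∈ Ico a b, f p q * f p' q := by
      have : ∀ q ∈ Ico a b, (∑ p ∈ P, f p q) ^ 2 = ∑ p ∈ P, ∑ p' ∈ P, f p q * f p' q := by
        intro q _
        rw [sq, sum_mul_sum]
      rw [sum_congr rfl this, sum_comm]
      refine sum_congr rfl fun p _ => ?_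
      rw [sum_comm]
    rw [h1]
    refine (sum_le_sum fun p hp => sum_le_sum fun p' hp' => htwo p hp p' hp').trans (le_of_eq ?_)
    simp only [sum_add_distrib, sum_const, nsmul_eq_mul, sum_ite_eq, sum_ite_mem, inter_self]
    have h2 : ∑ p ∈ P, ∑ p' ∈ P, ω p * ω p' * J = μ ^ 2 * J := by
      rw [sq, hμ, sum_mul_sum, sum_mul]
      refine sum_congr rfl fun p _ => ?_
      rw [sum_mul]
    rw [h2]
    ring
  have hμ1 : μ ≤ P.card := by
    rw [hμ]
    refine (sum_le_sum hω1).trans ?_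
    rw [sum_const, nsmul_eq_mul, mul_one]
  have hμ0 : 0 ≤ μ := sum_nonneg hω0
  have h1 : ∑ q ∈ Ico a b, ((((P.filter fun p => (q : ZMod p) ∈ T p).card : ℕ) : ℝ) - μ) ^ 2 =
      ∑ q ∈ Ico a b, (∑ p ∈ P, f p q) ^ 2 - 2 * μ * ∑ q ∈ Ico a b, ∑ p ∈ P, f p q + μ ^ 2 * J := by
    have : ∀ q ∈ Ico a b, ((((P.filter fun p => (q : ZMod p) ∈ T p).card : ℕ) : ℝ) - μ) ^ 2 =
        (∑ p ∈ P, f p q) ^ 2 - 2 * μ * ∑ p ∈ P, f p q + μ ^ 2 := by
      intro q _
      rw [hF q]; ring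
    rw [sum_congr rfl this, sum_add_distrib, sum_sub_distrib, sum_const, nsmul_eq_mul, hcardI,
      ← mul_sum]
    ring
  rw [h1]
  have hP0 : (0 : ℝ) ≤ P.card := Nat.cast_nonneg _
  have hQ0 : (0 : ℝ) ≤ Q := Nat.cast_nonneg _
  have hQQ : (Q : ℝ) ≤ (Q : ℝ) ^ 2 := by
    rcases Nat.eq_zero_or_pos Q with h0 | h0
    · rw [h0, Nat.cast_zero]; norm_num
    · have hQ1 : (1 : ℝ) ≤ Q := by exact_mod_cast h0
      rw [sq]
      exact le_mul_of_one_le_left hQ0 hQ1
  exact fin_calc hP0 hμ0 hμ1 hQQ hS2 hS1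

end Pool.Agent.TH924.PC
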