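import Pool.Agent.TH924.PC.Asym
import Pool.Agent.TH924.PC.Mom

set_option autoImplicit false

/-!
Most parameters lie in the bad classes for few primes.
-/

namespace Pool.Agent.TH924.PC

open Finset Pool.Agent.Helper923.HMertens

lemma card_PP (N : ℕ) : (PP N).card = Nat.primeCounting N := by
  rw [Nat.primeCounting, Nat.primeCounting', Nat.count_eq_card_filter_range]
  congr 1
  ext p
  simp only [mem_filter, mem_Icc, mem_range]
  constructor
  · rintro ⟨⟨h1, h2⟩, h3⟩; exact ⟨by omega, h3⟩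
  · rintro ⟨h1, h2⟩; exact ⟨⟨h2.one_lt.le, by omega⟩, h2⟩

lemma pi_lower {N : ℕ} (hN : 8 ≤ N) : (N : ℝ) / (4 * Real.log N) ≤ Nat.primeCounting N := by
  have h := Chebyshev.pi_ge N
  refine le_trans ?_ h
  have hN0 : (8 : ℝ) ≤ N := by exact_mod_cast hN
  have hlog : 0 < Real.log N := Real.log_pos (by linarith)
  rw [div_mul_eq_div_div, div_le_div_iff_of_pos_right hlog]
  have h1 : Real.log (N + 1) ≤ Real.log (2 * N) := Real.log_le_log (by linarith) (by linarith)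
  have h2 : Real.log (2 * N) = Real.log 8 + Real.log (N / 4) := by
    rw [← Real.log_mul (by norm_num) (by positivity)]
    congr 1; ring
  have h3 := Real.log_le_sub_one_of_pos (show (0 : ℝ) < N / 4 by linarith)
  have h4 : Real.log 8 = 3 * Real.log 2 := by
    rw [show (8 : ℝ) = 2 ^ 3 by norm_num, Real.log_pow]; norm_num
  have h5 := Real.log_two_gt_d9
  have h6 := Real.log_two_lt_d9
  nlinarith

open Classical in
/-- classes that contain a bad parameter -/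
noncomputable def TT (A : ℕ → ℤ → Prop) (p : ℕ) : Finset (ZMod p) :=
  if h : p = 0 then ∅ else
    haveI : NeZero p := ⟨h⟩
    univ.filter fun t => ∃ q : ℤ, (q : ZMod p) = t ∧ A p q

lemma mem_TT {A : ℕ → ℤ → Prop} {p : ℕ} (hp : 0 < p) {q : ℤ} (h : A p q) : (q : ZMod p) ∈ TT A p := by
  have : NeZero p := ⟨hp.ne'⟩
  unfold TT
  rw [dif_neg hp.ne']
  simp only [mem_filter, mem_univ, true_and]
  exact ⟨q, rfl, h⟩

lemma TT_spec {A : ℕ → ℤ → Prop} {p : ℕ} : ∀ t ∈ TT A p, ∃ q : ℤ, (q : ZMod p) = t ∧ A p q := by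
  intro t ht
  unfold TT at ht
  split_ifs at ht with h
  · simp at ht
  · simp only [mem_filter, mem_univ, true_and] at ht
    exact ht

lemma TT_card {A : ℕ → ℤ → Prop} {p : ℕ} (hp : 0 < p) : (TT A p).card ≤ p := by
  have : NeZero p := ⟨hp.ne'⟩
  calc (TT A p).card ≤ (univ : Finset (ZMod p)).card := card_le_card (subset_univ _)
    _ = p := by rw [card_univ, ZMod.card]

open Classical in
theorem most {n d P₁ : ℕ} (hn : 1 ≤ n) {ε : ℝ} (hε : 0 < ε) :
    ∃ C : ℝ, ∀ A : ℕ → ℤ → Prop, Cls A n d P₁ → ∀ X : ℝ, 2 ≤ X →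
      (Set.ncard {q : ℤ | |(q : ℝ)| ≤ X ∧
        ((d : ℝ) / n + ε) * ((Icc 1 ⌊X ^ (1 / 3 : ℝ)⌋₊).filter Nat.Prime).card ≤
          ((Icc 1 ⌊X ^ (1 / 3 : ℝ)⌋₊).filter fun p => p.Prime ∧ A p q).card} : ℝ) ≤
        C * X ^ (2 / 3 : ℝ) * Real.log X := by
  have hn0 : (0 : ℝ) < n := by exact_mod_cast hn
  obtain ⟨N₀, hN₀⟩ := Filter.eventually_atTop.1
    (Nat.tendsto_primeCounting.eventually_ge_atTop ⌈2 * (P₁ : ℝ) / ε⌉₊)
  set M := max N₀ 8 with hM
  set X₀ : ℝ := ((M : ℝ) + 1) ^ 3 with hX₀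
  have hM0 : (8 : ℝ) ≤ M := by exact_mod_cast le_max_right _ _
  have hX₀0 : 0 < X₀ := by positivity
  have hl2 : 0 < Real.log 2 := Real.log_pos (by norm_num)
  refine ⟨max ((2 * X₀ + 1) / Real.log 2) (4 / ε ^ 2 * (3 / Real.log 2 + 32)), fun A hA X hX => ?_⟩
  have hX0 : 0 < X := by linarith
  have hlogX : Real.log 2 ≤ Real.log X := Real.log_le_log (by norm_num) hX
  have hX23 : 1 ≤ X ^ (2 / 3 : ℝ) := Real.one_le_rpow (by linarith) (by norm_num)
  obtain ⟨S, hS1, hS2, hS3⟩ := exists_finset (fun q =>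
        ((d : ℝ) / n + ε) * ((Icc 1 ⌊X ^ (1 / 3 : ℝ)⌋₊).filter Nat.Prime).card ≤
          ((Icc 1 ⌊X ^ (1 / 3 : ℝ)⌋₊).filter fun p => p.Prime ∧ A p q).card) hX0.le
  rw [hS2]
  rcases lt_or_ge X X₀ with hlt | hge
  · have h1 : 2 * X₀ + 1 ≤ max ((2 * X₀ + 1) / Real.log 2) (4 / ε ^ 2 * (3 / Real.log 2 + 32)) *
        Real.log 2 := by
      rw [← div_le_iff₀ hl2]
      exact le_max_left _ _
    calc (S.card : ℝ) ≤ 2 * X + 1 := hS3
      _ ≤ 2 * X₀ + 1 := by linarith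
      _ ≤ _ := h1
      _ ≤ max ((2 * X₀ + 1) / Real.log 2) (4 / ε ^ 2 * (3 / Real.log 2 + 32)) * Real.log X := by
          refine mul_le_mul_of_nonneg_left hlogX (le_trans ?_ (le_max_left _ _))
          positivity
      _ ≤ max ((2 * X₀ + 1) / Real.log 2) (4 / ε ^ 2 * (3 / Real.log 2 + 32)) * X ^ (2 / 3 : ℝ) *
            Real.log X := by
          refine mul_le_mul_of_nonneg_right ?_ (by linarith)
          exact le_mul_of_one_le_right (le_trans (by positivity) (le_max_left _ _)) hX23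
  -- large X
  set Q := ⌊X ^ (1 / 3 : ℝ)⌋₊ with hQ
  have hX13 : (M : ℝ) + 1 ≤ X ^ (1 / 3 : ℝ) := by
    have : (M : ℝ) + 1 = X₀ ^ (1 / 3 : ℝ) := by
      rw [hX₀, ← Real.rpow_natCast, ← Real.rpow_mul (by positivity)]
      norm_num
    rw [this]
    exact Real.rpow_le_rpow hX₀0.le hge (by norm_num)
  have hMQ : M ≤ Q := by
    rw [hQ]
    exact Nat.le_floor (by linarith)
  have hQ8 : 8 ≤ Q := (le_max_right _ _).trans hMQ
  have hQN : N₀ ≤ Q := (le_max_left _ _).trans hMQ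
  have hQX : (Q : ℝ) ≤ X ^ (1 / 3 : ℝ) := Nat.floor_le (by positivity)
  have hQ0 : (8 : ℝ) ≤ Q := by exact_mod_cast hQ8
  have hXQ : X ^ (1 / 3 : ℝ) ≤ 2 * Q := by
    have h3 := Nat.lt_floor_add_one (X ^ (1 / 3 : ℝ))
    rw [← hQ] at h3
    linarith
  set π := Nat.primeCounting Q with hπ
  have hπ1 : 2 * (P₁ : ℝ) / ε ≤ π := by
    have h := hN₀ Q hQN
    exact (Nat.le_ceil _).trans (by exact_mod_cast h)
  have hπ2 := pi_lower hQ8
  have hlogQ : 0 < Real.log Q := Real.log_pos (by linarith)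
  have hπ0 : (0 : ℝ) < π := lt_of_lt_of_le (by positivity) hπ2
  set P := (PP Q).filter (fun p => P₁ < p) with hP
  have hPp : ∀ p ∈ P, p.Prime := by
    intro p hp
    rw [hP, mem_filter, mem_filter] at hp
    exact hp.1.2
  have hPQ : ∀ p ∈ P, p ≤ Q := by
    intro p hp
    rw [hP, mem_filter, mem_filter, mem_Icc] at hp
    exact hp.1.1.2
  have hPπ : (P.card : ℝ) ≤ π := by
    have h1 : P.card ≤ (PP Q).card := card_filter_le _ _
    rw [card_PP] at h1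
    exact_mod_cast h1
  have hTT : ∀ p ∈ P, (TT A p).card ≤ p := fun p hp => TT_card (hPp p hp).pos
  have hab : -⌊X⌋ ≤ ⌊X⌋ + 1 := by
    have : 0 ≤ ⌊X⌋ := Int.floor_nonneg.2 hX0.le
    linarith
  have hvar := variance hab hPp hPQ (TT A) hTT
  set μ := ∑ p ∈ P, ((TT A p).card : ℝ) / p with hμ
  have hμ1 : μ ≤ (d : ℝ) / n * π := by
    have h1 : μ ≤ ∑ p ∈ P, (d : ℝ) / n := by
      rw [hμ]
      refine sum_le_sum fun p hp => ?_
      have hp' := hp
      rw [hP, mem_filter, mem_filter] at hp'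
      have h2 := hA p (hPp p hp) hp'.2 (TT A p) TT_spec
      have h3 : ((TT A p).card : ℝ) * n ≤ d * p := by exact_mod_cast h2
      have hp0 : (0 : ℝ) < p := by exact_mod_cast (hPp p hp).pos
      rw [div_le_div_iff₀ hp0 hn0]
      exact h3
    rw [sum_const, nsmul_eq_mul] at h1
    have h2 : (P.card : ℝ) * (d / n) ≤ π * (d / n) := mul_le_mul_of_nonneg_right hPπ (by positivity)
    linarith
  -- the bad parameters
  have hbad : ∀ q ∈ S, (ε / 2 * π) ^ 2 ≤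
      ((((P.filter fun p => (q : ZMod p) ∈ TT A p).card : ℕ) : ℝ) - μ) ^ 2 := by
    intro q hq
    have h1 := (hS1 q hq).2
    have h2 : ((Icc 1 Q).filter fun p => p.Prime ∧ A p q).card ≤
        (P.filter fun p => (q : ZMod p) ∈ TT A p).card + P₁ := by
      have h3 : ((Icc 1 Q).filter fun p => p.Prime ∧ A p q) ⊆
          (P.filter fun p => (q : ZMod p) ∈ TT A p) ∪ Icc 1 P₁ := by
        intro p hp
        rw [mem_filter, mem_Icc] at hp
        rw [mem_union]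
        rcases Nat.lt_or_ge P₁ p with h | h
        · left
          rw [mem_filter, hP, mem_filter, mem_filter, mem_Icc]
          exact ⟨⟨⟨hp.1, hp.2.1⟩, h⟩, mem_TT hp.2.1.pos hp.2.2⟩
        · right
          rw [mem_Icc]
          exact ⟨hp.1.1, h⟩
      refine (card_le_card h3).trans ((card_union_le _ _).trans ?_)
      rw [Nat.card_Icc]
      omega
    have h2' : ((((Icc 1 Q).filter fun p => p.Prime ∧ A p q).card : ℕ) : ℝ) ≤
        (((P.filter fun p => (q : ZMod p) ∈ TT A p).card : ℕ) : ℝ) + P₁ := by exact_mod_cast h2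
    have h3 : (((Icc 1 Q).filter Nat.Prime).card : ℝ) = π := by
      have := card_PP Q
      exact_mod_cast this
    rw [h3] at h1
    have h4 : (P₁ : ℝ) ≤ ε / 2 * π := by
      rw [div_le_iff₀ hε] at hπ1
      linarith
    have h5 : ((d : ℝ) / n + ε) * π = (d : ℝ) / n * π + 2 * (ε / 2 * π) := by ring
    rw [h5] at h1
    have h6 : 0 ≤ ε / 2 * π := by positivity
    exact pow_le_pow_left₀ h6 (by linarith) 2
  have hSI : S ⊆ Ico (-⌊X⌋) (⌊X⌋ + 1) := by
    intro q hq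
    have h3 := abs_le.1 (hS1 q hq).1
    rw [mem_Ico]
    constructor
    · rw [neg_le, Int.le_floor]
      push_cast
      linarith
    · rw [Int.lt_add_one_iff, Int.le_floor]
      exact h3.2
  have h1 : (S.card : ℝ) * (ε / 2 * π) ^ 2 ≤
      (P.card : ℝ) * (((⌊X⌋ + 1 : ℤ) : ℝ) - ((-⌊X⌋ : ℤ) : ℝ)) + 3 * (P.card : ℝ) ^ 2 * (Q : ℝ) ^ 2 := by
    refine le_trans ?_ hvar
    rw [← nsmul_eq_mul, ← sum_const]
    refine (sum_le_sum hbad).trans ?_
    exact sum_le_sum_of_subset_of_nonneg hSI fun q _ _ => sq_nonneg _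
  have hJ : (((⌊X⌋ + 1 : ℤ) : ℝ) - ((-⌊X⌋ : ℤ) : ℝ)) ≤ 3 * X := by
    push_cast
    have := Int.floor_le X
    linarith
  have h2 : (S.card : ℝ) * (ε / 2 * π) ^ 2 ≤ π * (3 * X) + 3 * (π : ℝ) ^ 2 * (Q : ℝ) ^ 2 := by
    refine h1.trans (add_le_add ?_ ?_)
    · exact mul_le_mul hPπ hJ (by
        push_cast
        have : (0 : ℝ) ≤ ⌊X⌋ := by exact_mod_cast Int.floor_nonneg.2 hX0.le
        linarith) hπ0.le
    · have : (P.card : ℝ) ^ 2 ≤ (π : ℝ) ^ 2 := pow_le_pow_left₀ (Nat.cast_nonneg _) hPπ 2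
      have h7 : (0 : ℝ) ≤ (Q : ℝ) ^ 2 := sq_nonneg _
      nlinarith
  -- divide by `π ^ 2`
  have h3 : (S.card : ℝ) ≤ 4 / ε ^ 2 * (3 * X / π + 3 * (Q : ℝ) ^ 2) := by
    have h4 : (S.card : ℝ) * (ε / 2 * π) ^ 2 ≤
        (4 / ε ^ 2 * (3 * X / π + 3 * (Q : ℝ) ^ 2)) * (ε / 2 * π) ^ 2 := by
      refine h2.trans (le_of_eq ?_)
      field_simp
      ring
    exact le_of_mul_le_mul_right h4 (by positivity)
  have hXX : X = X ^ (1 / 3 : ℝ) * X ^ (2 / 3 : ℝ) := by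
    rw [← Real.rpow_add hX0]; norm_num
  have hXX2 : (X ^ (1 / 3 : ℝ)) ^ 2 = X ^ (2 / 3 : ℝ) := by
    rw [← Real.rpow_natCast, ← Real.rpow_mul hX0.le]; norm_num
  have hlQ : Real.log Q ≤ Real.log X := by
    refine Real.log_le_log (by linarith) (hQX.trans ?_)
    conv_rhs => rw [← Real.rpow_one X]
    exact Real.rpow_le_rpow_of_exponent_le (by linarith) (by norm_num)
  have h4 : 3 * X / π ≤ 24 * X ^ (2 / 3 : ℝ) * Real.log X := by
    have h5 : (Q : ℝ) ≤ π * (4 * Real.log Q) := by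
      rwa [div_le_iff₀ (by positivity)] at hπ2
    rw [div_le_iff₀ hπ0]
    calc 3 * X = 3 * (X ^ (1 / 3 : ℝ) * X ^ (2 / 3 : ℝ)) := by rw [← hXX]
      _ ≤ 3 * ((2 * Q) * X ^ (2 / 3 : ℝ)) := by
          refine mul_le_mul_of_nonneg_left ?_ (by norm_num)
          exact mul_le_mul_of_nonneg_right hXQ (by positivity)
      _ = 6 * X ^ (2 / 3 : ℝ) * Q := by ring
      _ ≤ 6 * X ^ (2 / 3 : ℝ) * (π * (4 * Real.log Q)) := mul_le_mul_of_nonneg_left h5 (by positivity)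
      _ = (24 * X ^ (2 / 3 : ℝ) * π) * Real.log Q := by ring
      _ ≤ (24 * X ^ (2 / 3 : ℝ) * π) * Real.log X := mul_le_mul_of_nonneg_left hlQ (by positivity)
      _ = 24 * X ^ (2 / 3 : ℝ) * Real.log X * π := by ring
  have h5 : 3 * (Q : ℝ) ^ 2 ≤ 3 / Real.log 2 * (X ^ (2 / 3 : ℝ) * Real.log X) := by
    have h6 : (Q : ℝ) ^ 2 ≤ X ^ (2 / 3 : ℝ) := by
      rw [← hXX2]
      exact pow_le_pow_left₀ (by linarith) hQX 2
    have h7 : X ^ (2 / 3 : ℝ) * Real.log 2 ≤ X ^ (2 / 3 : ℝ) * Real.log X :=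
      mul_le_mul_of_nonneg_left hlogX (by positivity)
    calc 3 * (Q : ℝ) ^ 2 ≤ 3 * X ^ (2 / 3 : ℝ) := by linarith
      _ = 3 / Real.log 2 * (X ^ (2 / 3 : ℝ) * Real.log 2) := by field_simp
      _ ≤ _ := mul_le_mul_of_nonneg_left h7 (by positivity)
  have h6 : 0 ≤ X ^ (2 / 3 : ℝ) * Real.log X := mul_nonneg (by positivity) (by linarith)
  calc (S.card : ℝ) ≤ 4 / ε ^ 2 * (3 * X / π + 3 * (Q : ℝ) ^ 2) := h3
    _ ≤ 4 / ε ^ 2 * (24 * X ^ (2 / 3 : ℝ) * Real.log X + 3 / Real.log 2 * (X ^ (2 / 3 : ℝ) * Real.log X)) :=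
        mul_le_mul_of_nonneg_left (add_le_add h4 h5) (by positivity)
    _ = (4 / ε ^ 2 * (3 / Real.log 2 + 24)) * (X ^ (2 / 3 : ℝ) * Real.log X) := by ring
    _ ≤ (4 / ε ^ 2 * (3 / Real.log 2 + 32)) * (X ^ (2 / 3 : ℝ) * Real.log X) := by
        refine mul_le_mul_of_nonneg_right ?_ h6
        refine mul_le_mul_of_nonneg_left ?_ (by positivity)
        linarith
    _ ≤ max ((2 * X₀ + 1) / Real.log 2) (4 / ε ^ 2 * (3 / Real.log 2 + 32)) *
          (X ^ (2 / 3 : ℝ) * Real.log X) := mul_le_mul_of_nonneg_right (le_max_right _ _) h6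
    _ = _ := by ring

end Pool.Agent.TH924.PC
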