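import Pool.Agent.TH924.PC.Asym
import Pool.Agent.TH924.PC.Asym3

set_option autoImplicit false

/-!
Deviations in the larger sieve: a set of integers, each of which lies in the distinguished classes
modulo `p` for more than the expected logarithmic proportion of the primes, is sparse.
-/

namespace Pool.Agent.TH924.PC

open Finset Pool.Agent.Helper923.HMertens

lemma cs_test (S : Finset ℤ) {p : ℕ} [NeZero p] (h : ZMod p → ℝ) :
    (∑ q ∈ S, h (q : ZMod p)) ^ 2 ≤ (∑ a, h a ^ 2) * (prs S p).card := by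
  classical
  have h1 : ∑ q ∈ S, h (q : ZMod p) =
      ∑ a : ZMod p, h a * ((S.filter fun q : ℤ => (q : ZMod p) = a).card : ℝ) := by
    rw [← sum_fiberwise S (fun q : ℤ => (q : ZMod p)) (fun q : ℤ => h (q : ZMod p))]
    refine sum_congr rfl fun a _ => ?_
    rw [sum_congr rfl (g := fun _ => h a) (fun q hq => by rw [(mem_filter.1 hq).2]), sum_const,
      nsmul_eq_mul, mul_comm]
  have h2 : ((prs S p).card : ℝ) =
      ∑ a : ZMod p, ((S.filter fun q : ℤ => (q : ZMod p) = a).card : ℝ) ^ 2 := by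
    have h3 : (prs S p).card = ∑ a : ZMod p, ((prs S p).filter fun x => (x.1 : ZMod p) = a).card :=
      card_eq_sum_card_fiberwise fun x _ => mem_univ _
    rw [h3, Nat.cast_sum]
    refine sum_congr rfl fun a _ => ?_
    have h4 : (prs S p).filter (fun x => (x.1 : ZMod p) = a) =
        (S.filter fun q : ℤ => (q : ZMod p) = a) ×ˢ (S.filter fun q : ℤ => (q : ZMod p) = a) := by
      ext x
      simp only [prs, mem_filter, mem_product]
      constructor
      · rintro ⟨⟨⟨h1, h2⟩, h3⟩, h4⟩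
        exact ⟨⟨h1, h4⟩, h2, h3 ▸ h4⟩
      · rintro ⟨⟨h1, h4⟩, h2, h3⟩
        exact ⟨⟨⟨h1, h2⟩, h4.trans h3.symm⟩, h4⟩
    rw [h4, card_product]
    push_cast
    ring
  rw [h1, h2]
  exact sum_mul_sq_le_sq_mul_sq _ _ _

open Classical in
/-- The larger sieve with a test function. -/
lemma weighted2 {P : Finset ℕ} (hP : ∀ p ∈ P, p.Prime) (T : (p : ℕ) → Finset (ZMod p)) {α u v G : ℝ}
    (hT : ∀ p ∈ P, ((T p).card : ℝ) ≤ α * p) (hv : 0 ≤ v) (huv : v ≤ u)
    (hG : α * u ^ 2 + (1 - α) * v ^ 2 = G) {S : Finset ℤ} {X V W : ℝ} (hX : 1 ≤ X)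
    (hS : ∀ q ∈ S, |(q : ℝ)| ≤ X) (hV : 0 ≤ V) (hG0 : 0 ≤ G)
    (hW : ∑ p ∈ P, Real.log p / p ≤ W)
    (hSV : ∀ q ∈ S, V ≤ ∑ p ∈ P, Real.log p / p * (if (q : ZMod p) ∈ T p then u else v)) :
    (S.card : ℝ) * (V ^ 2 - W * G * Real.log (2 * X)) ≤ W * G * ∑ p ∈ P, Real.log p := by
  rcases Nat.eq_zero_or_pos S.card with h0 | hpos
  · rw [h0]
    have : 0 ≤ ∑ p ∈ P, Real.log p := sum_nonneg fun p hp => Real.log_natCast_nonneg p
    have h2 : 0 ≤ ∑ p ∈ P, Real.log p / p :=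
      sum_nonneg fun p hp => div_nonneg (Real.log_natCast_nonneg p) (Nat.cast_nonneg p)
    have h3 : 0 ≤ W := h2.trans hW
    simp only [Nat.cast_zero, zero_mul]
    positivity
  have hw0 : ∀ p ∈ P, 0 ≤ Real.log p / p := fun p _ =>
    div_nonneg (Real.log_natCast_nonneg p) (Nat.cast_nonneg p)
  obtain ⟨h, hh⟩ : ∃ h : (p : ℕ) → ZMod p → ℝ, h = fun p a => if a ∈ T p then u else v := ⟨_, rfl⟩
  obtain ⟨F, hF⟩ : ∃ F : ℕ → ℝ, F = fun p => ∑ q ∈ S, h p (q : ZMod p) := ⟨_, rfl⟩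
  have h1 : (S.card : ℝ) * V ≤ ∑ p ∈ P, Real.log p / p * F p := by
    calc (S.card : ℝ) * V = ∑ q ∈ S, V := by rw [sum_const, nsmul_eq_mul]
      _ ≤ ∑ q ∈ S, ∑ p ∈ P, Real.log p / p * (if (q : ZMod p) ∈ T p then u else v) := sum_le_sum hSV
      _ = ∑ p ∈ P, ∑ q ∈ S, Real.log p / p * (if (q : ZMod p) ∈ T p then u else v) := sum_comm
      _ = ∑ p ∈ P, Real.log p / p * F p := by
          refine sum_congr rfl fun p _ => ?_
          rw [hF, hh, mul_sum]
  have h2 : (∑ p ∈ P, Real.log p / p * F p) ^ 2 ≤ W * ∑ p ∈ P, Real.log p / p * F p ^ 2 := by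
    have h := sum_mul_sq_le_sq_mul_sq P (fun p => Real.sqrt (Real.log p / p))
      (fun p => Real.sqrt (Real.log p / p) * F p)
    have e1 : ∑ p ∈ P, Real.sqrt (Real.log p / p) * (Real.sqrt (Real.log p / p) * F p) =
        ∑ p ∈ P, Real.log p / p * F p := by
      refine sum_congr rfl fun p hp => ?_
      rw [← mul_assoc, Real.mul_self_sqrt (hw0 p hp)]
    have e2 : ∑ p ∈ P, Real.sqrt (Real.log p / p) ^ 2 = ∑ p ∈ P, Real.log p / p := by
      refine sum_congr rfl fun p hp => ?_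
      rw [Real.sq_sqrt (hw0 p hp)]
    have e3 : ∑ p ∈ P, (Real.sqrt (Real.log p / p) * F p) ^ 2 = ∑ p ∈ P, Real.log p / p * F p ^ 2 := by
      refine sum_congr rfl fun p hp => ?_
      rw [mul_pow, Real.sq_sqrt (hw0 p hp)]
    rw [e1, e2, e3] at h
    refine h.trans (mul_le_mul_of_nonneg_right hW ?_)
    exact sum_nonneg fun p hp => mul_nonneg (hw0 p hp) (sq_nonneg _)
  have h3 : ∀ p ∈ P, Real.log p / p * F p ^ 2 ≤ G * (Real.log p * (prs S p).card) := by
    intro p hp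
    have hp0 : (0 : ℝ) < p := by exact_mod_cast (hP p hp).pos
    have : NeZero p := ⟨(hP p hp).ne_zero⟩
    have hcs := cs_test S (h p)
    have hsum : ∑ a, h p a ^ 2 ≤ p * G := by
      have e1 : ∑ a, h p a ^ 2 = ((T p).card : ℝ) * (u ^ 2 - v ^ 2) + p * v ^ 2 := by
        have e2 : ∀ a : ZMod p, h p a ^ 2 = (if a ∈ T p then u ^ 2 - v ^ 2 else 0) + v ^ 2 := by
          intro a
          rw [hh]
          show (if a ∈ T p then u else v) ^ 2 = _
          split_ifs <;> ring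
        rw [sum_congr rfl fun a _ => e2 a, sum_add_distrib, sum_ite_mem, univ_inter, sum_const,
          sum_const, card_univ, ZMod.card, nsmul_eq_mul, nsmul_eq_mul]
      rw [e1, ← hG]
      have e3 : 0 ≤ u ^ 2 - v ^ 2 := by
        have := pow_le_pow_left₀ hv huv 2
        linarith
      have e4 := mul_le_mul_of_nonneg_right (hT p hp) e3
      have e5 : (p : ℝ) * (α * u ^ 2 + (1 - α) * v ^ 2) = α * p * (u ^ 2 - v ^ 2) + p * v ^ 2 := by
        ring
      rw [e5]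
      linarith
    calc Real.log p / p * F p ^ 2 ≤ Real.log p / p * ((p * G) * (prs S p).card) := by
          refine mul_le_mul_of_nonneg_left ?_ (hw0 p hp)
          rw [hF]
          exact hcs.trans (mul_le_mul_of_nonneg_right hsum (Nat.cast_nonneg _))
      _ = G * (Real.log p * (prs S p).card) := by field_simp
  have h4 := pairs_le hP hX hS
  have hW0 : 0 ≤ W := (sum_nonneg hw0).trans hW
  have h5 : ∑ p ∈ P, Real.log p / p * F p ^ 2 ≤
      G * ((S.card : ℝ) ^ 2 * Real.log (2 * X) + S.card * ∑ p ∈ P, Real.log p) := by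
    calc ∑ p ∈ P, Real.log p / p * F p ^ 2
        ≤ ∑ p ∈ P, G * (Real.log p * (prs S p).card) := sum_le_sum h3
      _ = G * ∑ p ∈ P, Real.log p * (prs S p).card := by rw [mul_sum]
      _ ≤ _ := mul_le_mul_of_nonneg_left h4 hG0
  have hs0 : (0 : ℝ) < S.card := by exact_mod_cast hpos
  have h6 : ((S.card : ℝ) * V) ^ 2 ≤
      W * (G * ((S.card : ℝ) ^ 2 * Real.log (2 * X) + S.card * ∑ p ∈ P, Real.log p)) := by
    have h7 : ((S.card : ℝ) * V) ^ 2 ≤ (∑ p ∈ P, Real.log p / p * F p) ^ 2 :=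
      pow_le_pow_left₀ (mul_nonneg (Nat.cast_nonneg _) hV) h1 2
    exact (h7.trans h2).trans (mul_le_mul_of_nonneg_left h5 hW0)
  have h8 : (S.card : ℝ) * ((S.card : ℝ) * (V ^ 2 - W * G * Real.log (2 * X))) ≤
      S.card * (W * G * ∑ p ∈ P, Real.log p) := by
    have e1 : (S.card : ℝ) * ((S.card : ℝ) * (V ^ 2 - W * G * Real.log (2 * X))) =
        ((S.card : ℝ) * V) ^ 2 - W * (G * ((S.card : ℝ) ^ 2 * Real.log (2 * X))) := by ring
    have e2 : W * (G * ((S.card : ℝ) ^ 2 * Real.log (2 * X) + S.card * ∑ p ∈ P, Real.log p)) =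
        W * (G * ((S.card : ℝ) ^ 2 * Real.log (2 * X))) +
          S.card * (W * G * ∑ p ∈ P, Real.log p) := by ring
    rw [e1]
    rw [e2] at h6
    linarith
  exact le_of_mul_le_mul_left h8 hs0

open Classical in
theorem deviate {n d P₁ : ℕ} (hd : 1 ≤ d) (hdn : d < n) {β θ : ℝ} (K : ℝ)
    (hβ : (d : ℝ) / n < β) (hβ1 : β ≤ 1)
    (hθ : 1 < θ * (1 + (β - d / n) ^ 2 / ((d / n) * (1 - d / n)))) :
    ∃ C : ℝ, ∀ A : ℕ → ℤ → Prop, Cls A n d P₁ → ∀ X : ℝ, 2 ≤ X →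
      (Set.ncard {q : ℤ | |(q : ℝ)| ≤ X ∧
        ∑ p ∈ Icc 1 ⌊X ^ θ⌋₊ with p.Prime ∧ ¬ A p q, Real.log p / p ≤
          (1 - β) * θ * Real.log X + K} : ℝ) ≤ C * X ^ θ := by
  obtain ⟨C₀, hC₀⟩ := mertens_log
  have hC₀0 : 0 ≤ C₀ := (abs_nonneg _).trans (hC₀ 1 le_rfl)
  have hn0 : (0 : ℝ) < n := by
    have : 0 < n := by omega
    exact_mod_cast this
  have hd0 : (0 : ℝ) < d := by exact_mod_cast hd
  obtain ⟨α, hα⟩ : ∃ α : ℝ, α = d / n := ⟨_, rfl⟩
  rw [← hα] at hβ hθ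
  have hα0 : 0 < α := by rw [hα]; positivity
  have hα1 : α < 1 := by
    rw [hα, div_lt_one hn0]
    exact_mod_cast hdn
  have h1α : 0 < 1 - α := by linarith
  obtain ⟨u, hu⟩ : ∃ u : ℝ, u = β / α := ⟨_, rfl⟩
  obtain ⟨v, hv⟩ : ∃ v : ℝ, v = (1 - β) / (1 - α) := ⟨_, rfl⟩
  have hv0 : 0 ≤ v := by rw [hv]; exact div_nonneg (by linarith) h1α.le
  have hu1 : 1 ≤ u := by rw [hu, le_div_iff₀ hα0]; linarith
  have hv1 : v ≤ 1 := by rw [hv, div_le_iff₀ h1α]; linarith
  have huv : v ≤ u := by linarith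
  obtain ⟨G, hG⟩ : ∃ G : ℝ, G = α * u ^ 2 + (1 - α) * v ^ 2 := ⟨_, rfl⟩
  have hG1 : G = 1 + (β - α) ^ 2 / (α * (1 - α)) := by
    rw [hG, hu, hv]
    field_simp
    ring
  have hG2 : u - (u - v) * (1 - β) = G := by
    rw [hG, hu, hv]
    field_simp
    ring
  rw [← hG1] at hθ
  have hG0 : 0 < G := by rw [hG1]; positivity
  have hθ0 : 0 < θ := by
    by_contra h
    push Not at h
    have := mul_nonpos_of_nonpos_of_nonneg h hG0.le
    linarith
  obtain ⟨B, hB⟩ : ∃ B : ℝ, B = ∑ p ∈ PP P₁, Real.log p / p := ⟨_, rfl⟩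
  have hB0 : 0 ≤ B := by rw [hB]; exact sum_PP_nonneg P₁
  have hl2 : 0 < Real.log 2 := Real.log_pos (by norm_num)
  obtain ⟨c₂, hc₂⟩ : ∃ c₂ : ℝ, c₂ = u * (Real.log 2 + C₀ + B) + (u - v) * |K| := ⟨_, rfl⟩
  have hc₂0 : 0 ≤ c₂ := by
    rw [hc₂]
    have : 0 ≤ (u - v) * |K| := mul_nonneg (by linarith) (abs_nonneg _)
    have : 0 ≤ u * (Real.log 2 + C₀ + B) := by positivity
    linarith
  obtain ⟨a, ha⟩ : ∃ a : ℝ, a = G * θ * (θ * G - 1) := ⟨_, rfl⟩
  have ha0 : 0 < a := by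
    rw [ha]
    exact mul_pos (mul_pos hG0 hθ0) (by linarith)
  obtain ⟨b, hb⟩ : ∃ b : ℝ, b = 2 * c₂ * G * θ + G * θ * Real.log 2 + C₀ * G + G * θ := ⟨_, rfl⟩
  obtain ⟨c, hc⟩ : ∃ c : ℝ, c = C₀ * G * Real.log 2 + C₀ * G := ⟨_, rfl⟩
  have hc0 : 0 ≤ c := by rw [hc]; positivity
  obtain ⟨L₀, hL₀⟩ : ∃ L₀ : ℝ, L₀ = max (max 1 ((b + c) / a)) (c₂ / (G * θ)) := ⟨_, rfl⟩
  refine ⟨max 2 (2 * Real.exp L₀ + 1), fun A hA X hX => ?_⟩
  have hX0 : 0 < X := by linarith
  have hXθ : 1 ≤ X ^ θ := Real.one_le_rpow (by linarith) hθ0.le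
  obtain ⟨S, hS1, hS2, hS3⟩ := exists_finset (fun q =>
        ∑ p ∈ Icc 1 ⌊X ^ θ⌋₊ with p.Prime ∧ ¬ A p q, Real.log p / p ≤
          (1 - β) * θ * Real.log X + K) hX0.le
  rw [hS2]
  obtain ⟨L, hL⟩ : ∃ L : ℝ, L = Real.log X := ⟨_, rfl⟩
  rw [← hL] at hS1
  rcases lt_or_ge L L₀ with hlt | hge
  · have h1 : X < Real.exp L₀ := by
      rw [hL] at hlt
      exact (Real.log_lt_iff_lt_exp hX0).1 hlt
    calc (S.card : ℝ) ≤ 2 * X + 1 := hS3
      _ ≤ 2 * Real.exp L₀ + 1 := by linarith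
      _ ≤ max 2 (2 * Real.exp L₀ + 1) := le_max_right _ _
      _ = max 2 (2 * Real.exp L₀ + 1) * 1 := (mul_one _).symm
      _ ≤ max 2 (2 * Real.exp L₀ + 1) * X ^ θ := by
          refine mul_le_mul_of_nonneg_left hXθ ?_
          exact le_trans (by positivity) (le_max_right _ _)
  rw [hL₀] at hge
  have hL1 : 1 ≤ L := ((le_max_left _ _).trans (le_max_left _ _)).trans hge
  have hL2 : b + c ≤ a * L := by
    have := ((le_max_right _ _).trans (le_max_left _ _)).trans hge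
    rw [div_le_iff₀ ha0] at this
    linarith
  have hL3 : c₂ ≤ G * θ * L := by
    have := (le_max_right _ _).trans hge
    rw [div_le_iff₀ (mul_pos hG0 hθ0)] at this
    linarith
  obtain ⟨N, hN⟩ : ∃ N : ℕ, N = ⌊X ^ θ⌋₊ := ⟨_, rfl⟩
  rw [← hN] at hS1
  have hN1 : 1 ≤ N := by rw [hN]; exact Nat.le_floor (by exact_mod_cast hXθ)
  have hNX : (N : ℝ) ≤ X ^ θ := by rw [hN]; exact Nat.floor_le (by positivity)
  have hNX2 : X ^ θ / 2 ≤ N := by rw [hN]; exact half_le_floor hXθ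
  obtain ⟨P, hP⟩ : ∃ P : Finset ℕ, P = (PP N).filter (fun p => P₁ < p) := ⟨_, rfl⟩
  have hPp : ∀ p ∈ P, p.Prime ∧ P₁ < p := by
    intro p hp
    rw [hP, mem_filter, mem_filter] at hp
    exact ⟨hp.1.2, hp.2⟩
  have hθL : θ * L = Real.log (X ^ θ) := by rw [hL, Real.log_rpow hX0]
  have hW : ∑ p ∈ P, Real.log p / p ≤ θ * L + C₀ := by
    have h1 : ∑ p ∈ P, Real.log p / p ≤ ∑ p ∈ PP N, Real.log p / p := by
      rw [hP]
      refine sum_le_sum_of_subset_of_nonneg (filter_subset _ _) fun p _ _ => ?_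
      exact div_nonneg (Real.log_natCast_nonneg p) (Nat.cast_nonneg p)
    have h2 := (abs_le.1 (hC₀ N hN1)).2
    have h3 : Real.log N ≤ θ * L := by
      rw [hθL]
      exact Real.log_le_log (by exact_mod_cast hN1) hNX
    have h4 : ∑ p ∈ PP N, Real.log p / p ≤ Real.log N + C₀ := by linarith
    linarith
  have hWlow : θ * L - (Real.log 2 + C₀ + B) ≤ ∑ p ∈ P, Real.log p / p := by
    have h1 : PP N ⊆ P ∪ PP P₁ := by
      intro p hp
      have hp' := hp
      rw [mem_filter, mem_Icc] at hp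
      rw [mem_union]
      rcases Nat.lt_or_ge P₁ p with h | h
      · left
        rw [hP, mem_filter]
        exact ⟨hp', h⟩
      · right
        rw [mem_filter, mem_Icc]
        exact ⟨⟨hp.1.1, h⟩, hp.2⟩
    have h2 : ∑ p ∈ PP N, Real.log p / p ≤ ∑ p ∈ P, Real.log p / p + B := by
      refine (sum_le_sum_of_subset_of_nonneg h1 fun p _ _ =>
        div_nonneg (Real.log_natCast_nonneg p) (Nat.cast_nonneg p)).trans ?_
      have e1 := sum_union_inter (s₁ := P) (s₂ := PP P₁) (f := fun p : ℕ => Real.log p / p)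
      have e3 : 0 ≤ ∑ p ∈ P ∩ PP P₁, Real.log p / p :=
        sum_nonneg fun p _ => div_nonneg (Real.log_natCast_nonneg p) (Nat.cast_nonneg p)
      rw [hB]
      linarith
    have h3 := (abs_le.1 (hC₀ N hN1)).1
    have h5 : θ * L - Real.log 2 ≤ Real.log N := by
      rw [hθL, ← Real.log_div (by positivity) (by norm_num)]
      exact Real.log_le_log (by positivity) hNX2
    linarith
  have hTα : ∀ p ∈ P, ((TT A p).card : ℝ) ≤ α * p := by
    intro p hp
    have h2 := hA p (hPp p hp).1 (hPp p hp).2 (TT A p) TT_spec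
    have h3 : ((TT A p).card : ℝ) * n ≤ d * p := by exact_mod_cast h2
    rw [hα, div_mul_eq_mul_div, le_div_iff₀ hn0]
    exact h3
  have hSV : ∀ q ∈ S, G * θ * L - c₂ ≤
      ∑ p ∈ P, Real.log p / p * (if (q : ZMod p) ∈ TT A p then u else v) := by
    intro q hq
    have h1 := (hS1 q hq).2
    have h2 : ∑ p ∈ P, Real.log p / p * (if (q : ZMod p) ∈ TT A p then u else v) =
        u * ∑ p ∈ P, Real.log p / p -
          (u - v) * ∑ p ∈ P with ¬ (q : ZMod p) ∈ TT A p, Real.log p / p := by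
      rw [sum_filter, mul_sum, mul_sum, ← sum_sub_distrib]
      refine sum_congr rfl fun p _ => ?_
      by_cases h : (q : ZMod p) ∈ TT A p
      · simp [h]; ring
      · simp [h]; ring
    have h3 : ∑ p ∈ P with ¬ (q : ZMod p) ∈ TT A p, Real.log p / p ≤
        ∑ p ∈ Icc 1 N with p.Prime ∧ ¬ A p q, Real.log p / p := by
      refine sum_le_sum_of_subset_of_nonneg ?_ fun p _ _ =>
        div_nonneg (Real.log_natCast_nonneg p) (Nat.cast_nonneg p)
      intro p hp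
      rw [mem_filter] at hp
      have hp1 := hPp p hp.1
      have hp2 := hp.1
      rw [hP, mem_filter, mem_filter] at hp2
      rw [mem_filter]
      exact ⟨hp2.1.1, hp1.1, fun h => hp.2 (mem_TT hp1.1.pos h)⟩
    have h4 : ∑ p ∈ P with ¬ (q : ZMod p) ∈ TT A p, Real.log p / p ≤ (1 - β) * θ * L + |K| := by
      have := le_abs_self K
      linarith
    rw [h2, hc₂, ← hG2]
    have h5 := mul_le_mul_of_nonneg_left h4 (show 0 ≤ u - v by linarith)
    have h6 := mul_le_mul_of_nonneg_left hWlow (show 0 ≤ u by linarith)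
    have e1 : (u - (u - v) * (1 - β)) * θ * L - (u * (Real.log 2 + C₀ + B) + (u - v) * |K|) =
        u * (θ * L - (Real.log 2 + C₀ + B)) - (u - v) * ((1 - β) * θ * L + |K|) := by ring
    rw [e1]
    linarith
  have hV0 : 0 ≤ G * θ * L - c₂ := by linarith
  have hmain := weighted2 (fun p hp => (hPp p hp).1) (TT A) hTα hv0 huv hG.symm
    (by linarith : (1 : ℝ) ≤ X) (fun q hq => (hS1 q hq).1) hV0 hG0.le hW hSV
  have hth : ∑ p ∈ P, Real.log p ≤ 2 * X ^ θ := by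
    have h1 : ∑ p ∈ P, Real.log p ≤ ∑ p ∈ PP N, Real.log p := by
      rw [hP]
      refine sum_le_sum_of_subset_of_nonneg (filter_subset _ _) fun p _ _ => ?_
      exact Real.log_natCast_nonneg p
    have h2 := theta_le N
    linarith
  have hlog2 : Real.log (2 * X) = Real.log 2 + L := by
    rw [Real.log_mul (by norm_num) hX0.ne', hL]
  have hWpos : 0 < (θ * L + C₀) * G := by positivity
  have hkey : (θ * L + C₀) * G ≤ (G * θ * L - c₂) ^ 2 - (θ * L + C₀) * G * Real.log (2 * X) := by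
    rw [hlog2]
    have h2 : (b + c) * L ≤ a * L * L := mul_le_mul_of_nonneg_right hL2 (by linarith)
    have h3 : b * L + c ≤ (b + c) * L := by
      have : c ≤ c * L := le_mul_of_one_le_right hc0 hL1
      rw [add_mul]
      linarith
    have h4 : (G * θ * L - c₂) ^ 2 - (θ * L + C₀) * G * (Real.log 2 + L) - (θ * L + C₀) * G =
        a * L * L - b * L - c + c₂ ^ 2 := by
      rw [ha, hb, hc]; ring
    have h5 : 0 ≤ c₂ ^ 2 := sq_nonneg _
    linarith
  have h9 : (S.card : ℝ) * ((θ * L + C₀) * G) ≤ (2 * X ^ θ) * ((θ * L + C₀) * G) := by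
    calc (S.card : ℝ) * ((θ * L + C₀) * G)
        ≤ S.card * ((G * θ * L - c₂) ^ 2 - (θ * L + C₀) * G * Real.log (2 * X)) :=
          mul_le_mul_of_nonneg_left hkey (Nat.cast_nonneg _)
      _ ≤ (θ * L + C₀) * G * ∑ p ∈ P, Real.log p := hmain
      _ ≤ (θ * L + C₀) * G * (2 * X ^ θ) := mul_le_mul_of_nonneg_left hth hWpos.le
      _ = (2 * X ^ θ) * ((θ * L + C₀) * G) := by ring
  have h10 := le_of_mul_le_mul_right h9 hWpos
  refine h10.trans (mul_le_mul_of_nonneg_right (le_max_left _ _) (by positivity))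

end Pool.Agent.TH924.PC
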