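import Pool.Agent.TH924.PC.Sieve

set_option autoImplicit false

/-!
The larger sieve with primes up to a power of `X`.
-/

namespace Pool.Agent.TH924.PC

open Finset Pool.Agent.Helper923.HMertens

lemma exists_finset (B : ℤ → Prop) {X : ℝ} (hX : 0 ≤ X) :
    ∃ S : Finset ℤ, (∀ q ∈ S, |(q : ℝ)| ≤ X ∧ B q) ∧
      Set.ncard {q : ℤ | |(q : ℝ)| ≤ X ∧ B q} = S.card ∧ (S.card : ℝ) ≤ 2 * X + 1 := by
  classical
  have hfl : 0 ≤ ⌊X⌋ := Int.floor_nonneg.2 hX
  refine ⟨(Icc (-⌊X⌋) ⌊X⌋).filter fun q : ℤ => |(q : ℝ)| ≤ X ∧ B q, ?_, ?_, ?_⟩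
  · intro q hq
    exact (mem_filter.1 hq).2
  · rw [← Set.ncard_coe_finset]
    congr 1
    ext q
    simp only [coe_filter, mem_Icc]
    constructor
    · rintro ⟨h1, h2⟩
      refine ⟨?_, h1, h2⟩
      have h3 := abs_le.1 h1
      constructor
      · rw [neg_le, Int.le_floor]
        push_cast
        linarith
      · rw [Int.le_floor]
        exact h3.2
    · rintro ⟨-, h⟩
      exact h
  · have h1 : ((Icc (-⌊X⌋) ⌊X⌋).filter fun q : ℤ => |(q : ℝ)| ≤ X ∧ B q).card ≤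
        (2 * ⌊X⌋ + 1).toNat := by
      refine (card_filter_le _ _).trans ?_
      rw [Int.card_Icc]
      refine Int.toNat_le_toNat (by linarith)
    have h2 : (((2 * ⌊X⌋ + 1).toNat : ℕ) : ℝ) ≤ 2 * X + 1 := by
      have h3 : (((2 * ⌊X⌋ + 1).toNat : ℕ) : ℤ) = 2 * ⌊X⌋ + 1 := Int.toNat_of_nonneg (by linarith)
      have h4 : (((2 * ⌊X⌋ + 1).toNat : ℕ) : ℝ) = 2 * ⌊X⌋ + 1 := by exact_mod_cast h3
      rw [h4]
      have := Int.floor_le X
      linarith
    refine le_trans ?_ h2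
    exact_mod_cast h1

lemma sum_PP_nonneg (N : ℕ) : 0 ≤ ∑ p ∈ PP N, Real.log p / p :=
  sum_nonneg fun p _ => div_nonneg (Real.log_natCast_nonneg p) (Nat.cast_nonneg p)

lemma half_le_floor {y : ℝ} (hy : 1 ≤ y) : y / 2 ≤ ⌊y⌋₊ := by
  have h1 : 1 ≤ ⌊y⌋₊ := Nat.le_floor (by exact_mod_cast hy)
  have h3 := Nat.lt_floor_add_one y
  have h4 : (1 : ℝ) ≤ ⌊y⌋₊ := by exact_mod_cast h1
  linarith

/-- Primes in a window. -/
theorem window {n d P₁ : ℕ} (hn : 1 ≤ n) {δ θ : ℝ} (hδ : 0 ≤ δ) (hθ : (d : ℝ) / n + δ < θ) :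
    ∃ C : ℝ, ∀ A : ℕ → ℤ → Prop, Cls A n d P₁ → ∀ X : ℝ, 2 ≤ X →
      (Set.ncard {q : ℤ | |(q : ℝ)| ≤ X ∧
        ∀ p : ℕ, p.Prime → X ^ δ < p → (p : ℝ) ≤ X ^ θ → A p q} : ℝ) ≤ C * X ^ θ := by
  classical
  obtain ⟨C₀, hC₀⟩ := mertens_log
  have hC₀0 : 0 ≤ C₀ := (abs_nonneg _).trans (hC₀ 1 le_rfl)
  have hn0 : (0 : ℝ) < n := by exact_mod_cast hn
  have hd0 : (0 : ℝ) ≤ d := Nat.cast_nonneg d
  have hθ0 : 0 < θ := lt_of_le_of_lt (by positivity) hθ
  set B := ∑ p ∈ PP P₁, Real.log p / p with hB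
  have hB0 : 0 ≤ B := sum_PP_nonneg P₁
  set a := n * (θ - δ) - d with ha
  have ha0 : 0 < a := by
    have h1 : (d : ℝ) / n < θ - δ := by linarith
    rw [div_lt_iff₀ hn0] at h1
    rw [ha]; linarith
  have hl2 : 0 < Real.log 2 := Real.log_pos (by norm_num)
  set c := n * (Real.log 2 + 2 * C₀ + B) + d * Real.log 2 + 1 with hc
  have hc0 : 0 ≤ c := by positivity
  set L₀ := max (c / a) ((Real.log 2 + 2 * C₀ + B + 1) / (θ - δ)) with hL₀
  refine ⟨max (2 * (d : ℝ)) (2 * Real.exp L₀ + 1), fun A hA X hX => ?_⟩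
  have hX0 : 0 < X := by linarith
  have hXθ : 1 ≤ X ^ θ := Real.one_le_rpow (by linarith) hθ0.le
  have hXδ : 1 ≤ X ^ δ := Real.one_le_rpow (by linarith) hδ
  obtain ⟨S, hS1, hS2, hS3⟩ := exists_finset (fun q =>
    ∀ p : ℕ, p.Prime → X ^ δ < p → (p : ℝ) ≤ X ^ θ → A p q) hX0.le
  rw [hS2]
  set L := Real.log X with hL
  rcases lt_or_ge L L₀ with hlt | hge
  · have h1 : X < Real.exp L₀ := (Real.log_lt_iff_lt_exp hX0).1 hlt
    calc (S.card : ℝ) ≤ 2 * X + 1 := hS3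
      _ ≤ 2 * Real.exp L₀ + 1 := by linarith
      _ ≤ max (2 * (d : ℝ)) (2 * Real.exp L₀ + 1) := le_max_right _ _
      _ = max (2 * (d : ℝ)) (2 * Real.exp L₀ + 1) * 1 := (mul_one _).symm
      _ ≤ max (2 * (d : ℝ)) (2 * Real.exp L₀ + 1) * X ^ θ := by
          refine mul_le_mul_of_nonneg_left hXθ ?_
          exact le_trans (by positivity) (le_max_right _ _)
  have hL2 : c ≤ a * L := by
    have := (le_max_left _ _).trans hge
    rw [div_le_iff₀ ha0] at this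
    linarith
  have hθδ : 0 < θ - δ := by
    have : (0 : ℝ) ≤ d / n := by positivity
    linarith
  have hL3 : Real.log 2 + 2 * C₀ + B + 1 ≤ (θ - δ) * L := by
    have := (le_max_right _ _).trans hge
    rw [div_le_iff₀ hθδ] at this
    linarith
  set N := ⌊X ^ θ⌋₊ with hN
  set K := ⌊X ^ δ⌋₊ with hK
  have hN1 : 1 ≤ N := Nat.le_floor (by exact_mod_cast hXθ)
  have hK1 : 1 ≤ K := Nat.le_floor (by exact_mod_cast hXδ)
  set P := (PP N).filter (fun p => P₁ < p ∧ K < p) with hP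
  have hPp : ∀ p ∈ P, p.Prime ∧ P₁ < p := by
    intro p hp
    rw [hP, mem_filter, mem_filter] at hp
    exact ⟨hp.1.2, hp.2.1⟩
  set V := ∑ p ∈ P, Real.log p / p with hV
  have hV1 : (θ - δ) * L - (Real.log 2 + 2 * C₀ + B) ≤ V := by
    have h1 : PP N ⊆ P ∪ (PP K ∪ PP P₁) := by
      intro p hp
      have hp' := hp
      rw [mem_filter, mem_Icc] at hp
      rw [mem_union, mem_union]
      rcases Nat.lt_or_ge P₁ p with h | h
      · rcases Nat.lt_or_ge K p with h' | h'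
        · left
          rw [hP, mem_filter]
          exact ⟨hp', h, h'⟩
        · right; left
          rw [mem_filter, mem_Icc]
          exact ⟨⟨hp.1.1, h'⟩, hp.2⟩
      · right; right
        rw [mem_filter, mem_Icc]
        exact ⟨⟨hp.1.1, h⟩, hp.2⟩
    have hpos : ∀ T : Finset ℕ, 0 ≤ ∑ p ∈ T, Real.log p / p := fun T =>
      sum_nonneg fun p _ => div_nonneg (Real.log_natCast_nonneg p) (Nat.cast_nonneg p)
    have h2 : ∑ p ∈ PP N, Real.log p / p ≤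
        V + (∑ p ∈ PP K, Real.log p / p + B) := by
      refine (sum_le_sum_of_subset_of_nonneg h1 fun p _ _ =>
        div_nonneg (Real.log_natCast_nonneg p) (Nat.cast_nonneg p)).trans ?_
      have e1 := sum_union_inter (s₁ := P) (s₂ := PP K ∪ PP P₁) (f := fun p : ℕ => Real.log p / p)
      have e2 := sum_union_inter (s₁ := PP K) (s₂ := PP P₁) (f := fun p : ℕ => Real.log p / p)
      have e3 := hpos (P ∩ (PP K ∪ PP P₁))
      have e4 := hpos (PP K ∩ PP P₁)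
      linarith
    have h3 := (abs_le.1 (hC₀ N hN1)).1
    have h4 := (abs_le.1 (hC₀ K hK1)).2
    have h5 : θ * L - Real.log 2 ≤ Real.log N := by
      rw [hL, ← Real.log_rpow hX0, ← Real.log_div (by positivity) (by norm_num)]
      exact Real.log_le_log (by positivity) (half_le_floor hXθ)
    have h6 : Real.log K ≤ δ * L := by
      rw [hL, ← Real.log_rpow hX0]
      exact Real.log_le_log (by exact_mod_cast hK1) (Nat.floor_le (by positivity))
    have h7 : (θ - δ) * L = θ * L - δ * L := by ring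
    rw [h7]
    linarith
  have hV0 : 0 < V := by linarith
  have hSV : ∀ q ∈ S, V ≤ ∑ p ∈ P with A p q, Real.log p / p := by
    intro q hq
    have h1 := (hS1 q hq).2
    rw [filter_true_of_mem]
    intro p hp
    have hp' := hp
    rw [hP, mem_filter, mem_filter, mem_Icc] at hp
    refine h1 p hp.1.2 ?_ ?_
    · exact (Nat.floor_lt (by positivity)).1 hp.2.2
    · exact (Nat.cast_le.2 hp.1.1.2).trans (Nat.floor_le (by positivity))
  have hmain := weighted hA hPp (by linarith : (1 : ℝ) ≤ X) (fun q hq => (hS1 q hq).1) hV0.le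
    le_rfl hSV
  have hth : ∑ p ∈ P, Real.log p ≤ 2 * X ^ θ := by
    have h1 : ∑ p ∈ P, Real.log p ≤ ∑ p ∈ PP N, Real.log p := by
      refine sum_le_sum_of_subset_of_nonneg (filter_subset _ _) fun p _ _ => ?_
      exact Real.log_natCast_nonneg p
    have h2 := theta_le N
    have h3 : (N : ℝ) ≤ X ^ θ := Nat.floor_le (by positivity)
    linarith
  have hlog2 : Real.log (2 * X) = Real.log 2 + L := by
    rw [Real.log_mul (by norm_num) hX0.ne']
  have hkey : 1 ≤ n * V - d * Real.log (2 * X) := by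
    rw [hlog2]
    have h1 : n * ((θ - δ) * L - (Real.log 2 + 2 * C₀ + B)) ≤ n * V :=
      mul_le_mul_of_nonneg_left hV1 hn0.le
    have h2 : n * ((θ - δ) * L - (Real.log 2 + 2 * C₀ + B)) - d * (Real.log 2 + L) =
        a * L - (c - 1) := by rw [ha, hc]; ring
    linarith
  have h9 : (S.card : ℝ) * V ≤ (2 * d * X ^ θ) * V := by
    calc (S.card : ℝ) * V = S.card * (V * 1) := by ring
      _ ≤ S.card * (V * (n * V - d * Real.log (2 * X))) :=
          mul_le_mul_of_nonneg_left (mul_le_mul_of_nonneg_left hkey hV0.le) (Nat.cast_nonneg _)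
      _ = S.card * (n * V ^ 2 - V * d * Real.log (2 * X)) := by ring
      _ ≤ V * d * ∑ p ∈ P, Real.log p := hmain
      _ ≤ V * d * (2 * X ^ θ) := mul_le_mul_of_nonneg_left hth (by positivity)
      _ = (2 * d * X ^ θ) * V := by ring
  have h10 := le_of_mul_le_mul_right h9 hV0
  exact h10.trans (mul_le_mul_of_nonneg_right (le_max_left _ _) (by positivity))

lemma fin_set (B : ℤ → Prop) (X : ℝ) : {q : ℤ | |(q : ℝ)| ≤ X ∧ B q}.Finite := by
  refine (Set.finite_Icc (-⌈X⌉) ⌈X⌉).subset ?_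
  rintro q ⟨h1, -⟩
  have h3 := abs_le.1 h1
  have h4 := Int.le_ceil X
  constructor
  · have : (-(⌈X⌉ : ℝ)) ≤ q := by linarith
    exact_mod_cast this
  · have : (q : ℝ) ≤ ⌈X⌉ := by linarith
    exact_mod_cast this

/-- A fixed threshold. -/
theorem sparse {n d P₁ : ℕ} (hn : 1 ≤ n) (P₀ : ℕ) {θ : ℝ} (hθ : (d : ℝ) / n < θ) :
    ∃ C : ℝ, ∀ A : ℕ → ℤ → Prop, Cls A n d P₁ → ∀ X : ℝ, 2 ≤ X →
      (Set.ncard {q : ℤ | |(q : ℝ)| ≤ X ∧
        ∀ p : ℕ, p.Prime → P₀ < p → (p : ℝ) ≤ X ^ θ → A p q} : ℝ) ≤ C * X ^ θ := by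
  set δ := (θ - d / n) / 2 with hδ
  have hδ0 : 0 < δ := by rw [hδ]; linarith
  have hd0 : (0 : ℝ) ≤ d / n := by positivity
  have hθ0 : 0 < θ := lt_of_le_of_lt hd0 hθ
  obtain ⟨C, hC⟩ := window (d := d) (P₁ := P₁) hn hδ0.le (show (d : ℝ) / n + δ < θ by rw [hδ]; linarith)
  set X₀ : ℝ := (P₀ : ℝ) ^ (1 / δ) with hX₀
  have hX₀0 : 0 ≤ X₀ := by positivity
  refine ⟨max C (2 * X₀ + 1), fun A hA X hX => ?_⟩
  have hX0 : 0 < X := by linarith
  have hXθ : 1 ≤ X ^ θ := Real.one_le_rpow (by linarith) hθ0.le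
  rcases lt_or_ge X X₀ with hlt | hge
  · obtain ⟨S, hS1, hS2, hS3⟩ := exists_finset
      (fun q => ∀ p : ℕ, p.Prime → P₀ < p → (p : ℝ) ≤ X ^ θ → A p q) hX0.le
    rw [hS2]
    calc (S.card : ℝ) ≤ 2 * X + 1 := hS3
      _ ≤ 2 * X₀ + 1 := by linarith
      _ ≤ max C (2 * X₀ + 1) := le_max_right _ _
      _ = max C (2 * X₀ + 1) * 1 := (mul_one _).symm
      _ ≤ max C (2 * X₀ + 1) * X ^ θ := by
          refine mul_le_mul_of_nonneg_left hXθ ?_
          exact le_trans (by positivity) (le_max_right _ _)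
  have hP₀ : (P₀ : ℝ) ≤ X ^ δ := by
    have h1 : (P₀ : ℝ) = X₀ ^ δ := by
      rw [hX₀, ← Real.rpow_mul (Nat.cast_nonneg _)]
      rw [one_div, inv_mul_cancel₀ hδ0.ne', Real.rpow_one]
    rw [h1]
    exact Real.rpow_le_rpow hX₀0 hge hδ0.le
  have hsub : {q : ℤ | |(q : ℝ)| ≤ X ∧ ∀ p : ℕ, p.Prime → P₀ < p → (p : ℝ) ≤ X ^ θ → A p q} ⊆
      {q : ℤ | |(q : ℝ)| ≤ X ∧ ∀ p : ℕ, p.Prime → X ^ δ < p → (p : ℝ) ≤ X ^ θ → A p q} := by
    rintro q ⟨h1, h2⟩
    refine ⟨h1, fun p hp h3 h4 => h2 p hp ?_ h4⟩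
    have : (P₀ : ℝ) < p := lt_of_le_of_lt hP₀ h3
    exact_mod_cast this
  have h1 : (Set.ncard {q : ℤ | |(q : ℝ)| ≤ X ∧
        ∀ p : ℕ, p.Prime → P₀ < p → (p : ℝ) ≤ X ^ θ → A p q} : ℝ) ≤
      Set.ncard {q : ℤ | |(q : ℝ)| ≤ X ∧
        ∀ p : ℕ, p.Prime → X ^ δ < p → (p : ℝ) ≤ X ^ θ → A p q} := by
    exact_mod_cast Set.ncard_le_ncard hsub (fin_set _ X)
  refine h1.trans ((hC A hA X hX).trans ?_)
  exact mul_le_mul_of_nonneg_right (le_max_left _ _) (by positivity)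

end Pool.Agent.TH924.PC
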