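import Mathlib

set_option autoImplicit false

/-!
Constants of a derivation of `F_p(x)`: the field `F_p(x)` has dimension at most `p` over them.
-/

namespace Pool.Agent.TH924.PC

open Polynomial

variable {p : ℕ} [hp : Fact p.Prime]

/-- The constants of a derivation of `F_p(x)`. -/
noncomputable def KK (D : Derivation ℤ (RatFunc (ZMod p)) (RatFunc (ZMod p))) : Subfield (RatFunc (ZMod p)) where
  carrier := {f | D f = 0}
  mul_mem' := by
    intro a b ha hb
    have ha' : D a = 0 := ha
    have hb' : D b = 0 := hb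
    show D (a * b) = 0
    rw [D.leibniz, ha', hb']; simp
  one_mem' := D.map_one_eq_zero
  add_mem' := by
    intro a b ha hb
    have ha' : D a = 0 := ha
    have hb' : D b = 0 := hb
    show D (a + b) = 0
    rw [map_add, ha', hb', add_zero]
  zero_mem' := map_zero D
  neg_mem' := by
    intro a ha
    have ha' : D a = 0 := ha
    show D (-a) = 0
    rw [map_neg, ha', neg_zero]
  inv_mem' := by
    intro a ha
    have ha' : D a = 0 := ha
    show D a⁻¹ = 0
    rw [Derivation.leibniz_inv, ha']; simp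

lemma mem_KK {D : Derivation ℤ (RatFunc (ZMod p)) (RatFunc (ZMod p))} {f : RatFunc (ZMod p)} :
    f ∈ KK D ↔ D f = 0 := Iff.rfl

/-- A derivation is linear over its constants. -/
noncomputable def DL (D : Derivation ℤ (RatFunc (ZMod p)) (RatFunc (ZMod p))) :
    Module.End (KK D) (RatFunc (ZMod p)) where
  toFun := D
  map_add' := map_add D
  map_smul' c f := by
    have hc : D (c : RatFunc (ZMod p)) = 0 := c.2
    show D ((c : RatFunc (ZMod p)) * f) = (c : RatFunc (ZMod p)) * D f
    rw [D.leibniz, hc]; simp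

lemma DL_pow (D : Derivation ℤ (RatFunc (ZMod p)) (RatFunc (ZMod p))) (i : ℕ)
    (f : RatFunc (ZMod p)) : ((DL D) ^ i) f = (⇑D)^[i] f := by
  induction i with
  | zero => rfl
  | succ i ih =>
    rw [pow_succ', Module.End.mul_apply, ih, Function.iterate_succ_apply']
    rfl

/-- The operator `∑ aᵢ D ^ i`. -/
noncomputable def opL (D : Derivation ℤ (RatFunc (ZMod p)) (RatFunc (ZMod p))) {n : ℕ}
    (a : Fin (n + 1) → RatFunc (ZMod p)) : Module.End (KK D) (RatFunc (ZMod p)) :=
  ∑ i : Fin (n + 1), (LinearMap.mulLeft (KK D) (a i)) * (DL D) ^ (i : ℕ)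

lemma opL_apply (D : Derivation ℤ (RatFunc (ZMod p)) (RatFunc (ZMod p))) {n : ℕ}
    (a : Fin (n + 1) → RatFunc (ZMod p)) (y : RatFunc (ZMod p)) :
    opL D a y = ∑ i : Fin (n + 1), a i * (⇑D)^[(i : ℕ)] y := by
  unfold opL
  rw [LinearMap.sum_apply]
  refine Finset.sum_congr rfl fun i _ => ?_
  rw [Module.End.mul_apply, DL_pow]
  rfl

instance charP_ratfunc : CharP (RatFunc (ZMod p)) p :=
  charP_of_injective_algebraMap (algebraMap (ZMod p) (RatFunc (ZMod p))).injective p

lemma const_zmod (D : Derivation ℤ (RatFunc (ZMod p)) (RatFunc (ZMod p))) (a : ZMod p) :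
    D (RatFunc.C a) = 0 := by
  have : a = ((a.val : ℕ) : ZMod p) := by simp
  rw [this, map_natCast]
  exact D.map_natCast _

lemma pow_p (D : Derivation ℤ (RatFunc (ZMod p)) (RatFunc (ZMod p))) (f : RatFunc (ZMod p)) :
    D (f ^ p) = 0 := by
  rw [D.leibniz_pow]
  simp

/-- The span of the powers of `x` smaller than `p`. -/
lemma span_top (D : Derivation ℤ (RatFunc (ZMod p)) (RatFunc (ZMod p))) :
    Submodule.span (KK D) (Set.range fun i : Fin p => (RatFunc.X : RatFunc (ZMod p)) ^ (i : ℕ)) = ⊤ := by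
  have hp0 : 0 < p := hp.out.pos
  have hpoly : ∀ P : (ZMod p)[X], algebraMap (ZMod p)[X] (RatFunc (ZMod p)) P ∈
      Submodule.span (KK D) (Set.range fun i : Fin p => (RatFunc.X : RatFunc (ZMod p)) ^ (i : ℕ)) := by
    intro P
    induction P using Polynomial.induction_on' with
    | add P Q hP hQ => rw [map_add]; exact add_mem hP hQ
    | monomial k a =>
      rw [← Polynomial.C_mul_X_pow_eq_monomial, map_mul, map_pow, RatFunc.algebraMap_X,
        RatFunc.algebraMap_C]
      have h1 : (RatFunc.X : RatFunc (ZMod p)) ^ k =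
          ((RatFunc.X : RatFunc (ZMod p)) ^ (k / p)) ^ p * RatFunc.X ^ (k % p) := by
        rw [← pow_mul, ← pow_add]
        congr 1
        rw [mul_comm]; exact (Nat.div_add_mod k p).symm
      have hc : RatFunc.C a * ((RatFunc.X : RatFunc (ZMod p)) ^ (k / p)) ^ p ∈ KK D := by
        refine mul_mem ?_ ?_
        · exact const_zmod D a
        · exact pow_p D _
      have h2 : RatFunc.C a * (RatFunc.X : RatFunc (ZMod p)) ^ k =
          (⟨_, hc⟩ : KK D) • (RatFunc.X : RatFunc (ZMod p)) ^ (k % p) := by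
        rw [h1, ← mul_assoc]; rfl
      rw [h2]
      refine Submodule.smul_mem _ _ (Submodule.subset_span ⟨⟨k % p, Nat.mod_lt _ hp0⟩, rfl⟩)
  rw [eq_top_iff]
  rintro f -
  induction f using RatFunc.induction_on with
  | f P Q hQ =>
    have hQ' : algebraMap (ZMod p)[X] (RatFunc (ZMod p)) Q ≠ 0 := RatFunc.algebraMap_ne_zero hQ
    have hc : ((algebraMap (ZMod p)[X] (RatFunc (ZMod p)) Q) ^ p)⁻¹ ∈ KK D := inv_mem (pow_p D _)
    have h2 : algebraMap (ZMod p)[X] (RatFunc (ZMod p)) P / algebraMap (ZMod p)[X] (RatFunc (ZMod p)) Q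
        = (⟨_, hc⟩ : KK D) • algebraMap (ZMod p)[X] (RatFunc (ZMod p)) (P * Q ^ (p - 1)) := by
      show _ = ((algebraMap (ZMod p)[X] (RatFunc (ZMod p)) Q) ^ p)⁻¹ * _
      rw [map_mul, map_pow]
      obtain ⟨k, hk⟩ : ∃ k, p = k + 1 := ⟨p - 1, by omega⟩
      have hk1 : p - 1 = k := by omega
      rw [hk1]
      have hk2 : (algebraMap (ZMod p)[X] (RatFunc (ZMod p)) Q) ^ p =
          (algebraMap (ZMod p)[X] (RatFunc (ZMod p)) Q) ^ k *
            algebraMap (ZMod p)[X] (RatFunc (ZMod p)) Q := by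
        rw [← pow_succ, ← hk]
      rw [hk2]
      field_simp
    rw [h2]
    exact Submodule.smul_mem _ _ (hpoly _)

lemma finite_K (D : Derivation ℤ (RatFunc (ZMod p)) (RatFunc (ZMod p))) :
    Module.Finite (KK D) (RatFunc (ZMod p)) := by
  classical
  refine ⟨⟨Finset.univ.image fun i : Fin p => (RatFunc.X : RatFunc (ZMod p)) ^ (i : ℕ), ?_⟩⟩
  rw [← span_top D]
  congr 1
  simp

lemma finrank_K (D : Derivation ℤ (RatFunc (ZMod p)) (RatFunc (ZMod p))) :
    Module.finrank (KK D) (RatFunc (ZMod p)) ≤ p := by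
  have h := finrank_range_le_card (R := KK D)
    (fun i : Fin p => (RatFunc.X : RatFunc (ZMod p)) ^ (i : ℕ))
  rw [Set.finrank, span_top D, finrank_top, Fintype.card_fin] at h
  exact h

/-- The derivation with `D x = 1` is unique. -/
lemma D_unique {D₁ D₂ : Derivation ℤ (RatFunc (ZMod p)) (RatFunc (ZMod p))}
    (h₁ : D₁ RatFunc.X = 1) (h₂ : D₂ RatFunc.X = 1) : D₁ = D₂ := by
  have hpoly : ∀ P : (ZMod p)[X], D₁ (algebraMap (ZMod p)[X] (RatFunc (ZMod p)) P) =
      D₂ (algebraMap (ZMod p)[X] (RatFunc (ZMod p)) P) := by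
    intro P
    induction P using Polynomial.induction_on' with
    | add P Q hP hQ => rw [map_add, map_add, map_add, hP, hQ]
    | monomial k a =>
      rw [← Polynomial.C_mul_X_pow_eq_monomial, map_mul, map_pow, RatFunc.algebraMap_X,
        RatFunc.algebraMap_C, D₁.leibniz, D₂.leibniz, const_zmod,
        const_zmod, D₁.leibniz_pow, D₂.leibniz_pow, h₁, h₂]
  ext f
  induction f using RatFunc.induction_on with
  | f P Q hQ =>
    rw [Derivation.leibniz_div, Derivation.leibniz_div, hpoly, hpoly]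

end Pool.Agent.TH924.PC
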