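import Pool.Agent.TH924.PC.Dim

set_option autoImplicit false

/-!
Eigenvalue count: in a polynomial family of differential operators over `F_p(x)` whose highest
coefficient in the parameter is a multiplication, at most `d p / n` values of the parameter give
`n` independent solutions.
-/

namespace Pool.Agent.TH924.PC

open Polynomial

variable {p : ℕ} [hp : Fact p.Prime]

/-- The companion map of `∑ q^k M_k + q^d / s`. -/
noncomputable def cmp (D : Derivation ℤ (RatFunc (ZMod p)) (RatFunc (ZMod p))) {d : ℕ}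
    (M : Fin d → Module.End (KK D) (RatFunc (ZMod p))) (s : RatFunc (ZMod p)) :
    Module.End (KK D) (Fin d → RatFunc (ZMod p)) :=
  LinearMap.pi fun j => if h : (j : ℕ) + 1 < d then LinearMap.proj ⟨j + 1, h⟩ else
    -((LinearMap.mulLeft (KK D) s) ∘ₗ (∑ k, M k ∘ₗ LinearMap.proj k))

lemma cmp_apply (D : Derivation ℤ (RatFunc (ZMod p)) (RatFunc (ZMod p))) {d : ℕ}
    (M : Fin d → Module.End (KK D) (RatFunc (ZMod p))) (s : RatFunc (ZMod p))
    (v : Fin d → RatFunc (ZMod p)) (j : Fin d) :
    cmp D M s v j = if h : (j : ℕ) + 1 < d then v ⟨j + 1, h⟩ else -(s * ∑ k, M k (v k)) := by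
  unfold cmp
  rw [LinearMap.pi_apply]
  split_ifs with h
  · rfl
  · simp [Finset.mul_sum]

theorem count_le (D : Derivation ℤ (RatFunc (ZMod p)) (RatFunc (ZMod p))) {d n : ℕ} (hd : 1 ≤ d)
    (M : Fin d → Module.End (KK D) (RatFunc (ZMod p))) (r : RatFunc (ZMod p)) (hr : r ≠ 0)
    {ι : Type*} (S : Finset ι) (κ : ι → KK D) (hκ : Set.InjOn κ S) (y : ι → Fin n → RatFunc (ZMod p))
    (hsol : ∀ q ∈ S, ∀ j, ∑ k : Fin d, (κ q : RatFunc (ZMod p)) ^ (k : ℕ) * M k (y q j) +
      (κ q : RatFunc (ZMod p)) ^ d * r * y q j = 0)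
    (hind : ∀ q ∈ S, LinearIndependent (KK D) (y q)) : S.card * n ≤ d * p := by
  classical
  have hfin := finite_K D
  have hfr := finrank_K D
  let Φ := cmp D M r⁻¹
  let v : (q : S) → Fin n → (Fin d → RatFunc (ZMod p)) :=
    fun q j k => ((κ q : KK D) : RatFunc (ZMod p)) ^ (k : ℕ) * y q j
  have hmem : ∀ (q : S) (j : Fin n), v q j ∈ Φ.eigenspace (κ q) := by
    intro q j
    rw [Module.End.mem_eigenspace_iff]
    funext k
    show cmp D M r⁻¹ (v q j) k = ((κ q : KK D) : RatFunc (ZMod p)) * v q j k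
    rw [cmp_apply]
    split_ifs with h
    · simp only [v]
      rw [pow_succ]; ring
    · have hk : (k : ℕ) + 1 = d := by
        have := k.2
        omega
      have h1 : ∑ k : Fin d, M k (v q j k) =
          ∑ k : Fin d, ((κ q : KK D) : RatFunc (ZMod p)) ^ (k : ℕ) * M k (y q j) := by
        refine Finset.sum_congr rfl fun k _ => ?_
        have : v q j k = ((κ q : KK D) ^ (k : ℕ)) • y q j := by
          show _ = (((κ q : KK D) ^ (k : ℕ) : KK D) : RatFunc (ZMod p)) * y q j
          simp [v]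
        rw [this, map_smul]
        show (((κ q : KK D) ^ (k : ℕ) : KK D) : RatFunc (ZMod p)) * _ = _
        simp
      have h2 := hsol q q.2 j
      rw [h1]
      simp only [v]
      rw [← mul_assoc, ← pow_succ', hk]
      have h3 : ∑ k : Fin d, ((κ q : KK D) : RatFunc (ZMod p)) ^ (k : ℕ) * M k (y q j) =
          -(((κ q : KK D) : RatFunc (ZMod p)) ^ d * r * y q j) := by
        linear_combination h2
      rw [h3]
      field_simp
  have hli : ∀ q : S, LinearIndependent (KK D) (v q) := by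
    intro q
    have h0 : 0 < d := hd
    refine LinearIndependent.of_comp (LinearMap.proj (⟨0, h0⟩ : Fin d)) ?_
    have : (⇑(LinearMap.proj (R := KK D) (φ := fun _ : Fin d => RatFunc (ZMod p)) (⟨0, h0⟩ : Fin d)) ∘ v q) =
        y q := by
      funext j
      simp [v]
    rw [this]
    exact hind q q.2
  have hspan : ∀ q : S, Submodule.span (KK D) (Set.range (v q)) ≤ Φ.eigenspace (κ q) := by
    intro q
    rw [Submodule.span_le]
    rintro _ ⟨j, rfl⟩
    exact hmem q j
  have hinj : Function.Injective (fun q : S => κ q) := by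
    intro a b hab
    exact Subtype.ext (hκ a.2 b.2 hab)
  have hind2 : iSupIndep (fun q : S => Φ.eigenspace (κ q)) :=
    (Module.End.eigenspaces_iSupIndep Φ).comp hinj
  have hLI : LinearIndependent (KK D) (fun ji : Σ _ : S, Fin n => v ji.1 ji.2) := by
    refine linearIndependent_iUnion_finite hli fun q t _ hq => ?_
    refine (hind2.disjoint_biSup (x := q) (y := t) hq).mono (hspan q) ?_
    exact iSup₂_mono fun i _ => hspan i
  have hcard := hLI.fintype_card_le_finrank
  rw [Fintype.card_sigma, Finset.sum_const, Finset.card_univ, Fintype.card_fin,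
    Fintype.card_coe, smul_eq_mul, Module.finrank_pi_fintype, Finset.sum_const, Finset.card_univ,
    Fintype.card_fin, smul_eq_mul] at hcard
  exact hcard.trans (Nat.mul_le_mul_left d hfr)

/-- The reduction modulo `p` of `∑ b i ∂^i` has `n` solutions in `F_p(x)` that are independent over
the constants. -/
def FullMod (n : ℕ) (b : Fin (n + 1) → ℤ[X]) (p : ℕ) [Fact p.Prime] : Prop :=
  ∃ D : Derivation ℤ (RatFunc (ZMod p)) (RatFunc (ZMod p)),
    D (RatFunc.X : RatFunc (ZMod p)) = 1 ∧
    ∃ y : Fin n → RatFunc (ZMod p),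
      (∀ j : Fin n, ∑ i : Fin (n + 1),
          Polynomial.aeval (RatFunc.X : RatFunc (ZMod p)) (b i) * (⇑D)^[(i : ℕ)] (y j) = 0) ∧
      ∀ c : Fin n → RatFunc (ZMod p), (∀ j, D (c j) = 0) →
        ∑ j : Fin n, c j * y j = 0 → ∀ j, c j = 0

/-- The family `∑ q^k b_k + q^d r`. -/
noncomputable def fam {n d : ℕ} (b : Fin d → Fin (n + 1) → ℤ[X]) (r : ℤ[X]) (q : ℤ) :
    Fin (n + 1) → ℤ[X] :=
  fun i => (∑ k : Fin d, C (q ^ (k : ℕ)) * b k i) + if i = 0 then C (q ^ d) * r else 0

lemma aeval_eq (r : ℤ[X]) : Polynomial.aeval (RatFunc.X : RatFunc (ZMod p)) r =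
    algebraMap (ZMod p)[X] (RatFunc (ZMod p)) (r.map (Int.castRingHom (ZMod p))) := by
  induction r using Polynomial.induction_on' with
  | add P Q hP hQ => simp [hP, hQ]
  | monomial k a => simp [← C_mul_X_pow_eq_monomial]

lemma aeval_ne {r : ℤ[X]} (hr : r.map (Int.castRingHom (ZMod p)) ≠ 0) :
    Polynomial.aeval (RatFunc.X : RatFunc (ZMod p)) r ≠ 0 := by
  rw [aeval_eq]
  exact RatFunc.algebraMap_ne_zero hr

theorem classes_le {n d : ℕ} (hd : 1 ≤ d) (b : Fin d → Fin (n + 1) → ℤ[X]) (r : ℤ[X])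
    (hr : r.map (Int.castRingHom (ZMod p)) ≠ 0) (T : Finset (ZMod p))
    (hT : ∀ t ∈ T, ∃ q : ℤ, (q : ZMod p) = t ∧ FullMod n (fam b r q) p) :
    T.card * n ≤ d * p := by
  classical
  rcases T.eq_empty_or_nonempty with h | ⟨t₀, ht₀⟩
  · simp [h]
  obtain ⟨q₀, -, D, hD, -⟩ := hT t₀ ht₀
  have h : ∀ t ∈ T, ∃ y : Fin n → RatFunc (ZMod p), LinearIndependent (KK D) y ∧
      ∀ j, ∑ k : Fin d, (RatFunc.C t : RatFunc (ZMod p)) ^ (k : ℕ) *
        opL D (fun i => Polynomial.aeval (RatFunc.X : RatFunc (ZMod p)) (b k i)) (y j) +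
      (RatFunc.C t : RatFunc (ZMod p)) ^ d * Polynomial.aeval (RatFunc.X : RatFunc (ZMod p)) r * y j = 0 := by
    intro t ht
    obtain ⟨q, hq, D', hD', y, hy, hind⟩ := hT t ht
    obtain rfl : D' = D := D_unique hD' hD
    have hqt : (RatFunc.C t : RatFunc (ZMod p)) = (q : RatFunc (ZMod p)) := by
      rw [← hq, map_intCast]
    refine ⟨y, ?_, ?_⟩
    · rw [Fintype.linearIndependent_iff]
      intro g hg j
      have := hind (fun j => (g j : RatFunc (ZMod p))) (fun j => (g j).2) hg j
      exact Subtype.ext this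
    · intro j
      rw [hqt, ← hy j]
      simp only [opL_apply, fam, map_add, map_sum, map_mul, add_mul, Finset.sum_mul, Finset.mul_sum]
      rw [Finset.sum_add_distrib, Finset.sum_comm]
      congr 1
      · refine Finset.sum_congr rfl fun k _ => Finset.sum_congr rfl fun i _ => ?_
        simp
        ring
      · rw [Finset.sum_eq_single (0 : Fin (n + 1))]
        · simp
        · intro i _ hi
          simp [hi]
        · simp
  choose! y hy1 hy2 using h
  refine count_le D hd (fun k => opL D (fun i => Polynomial.aeval (RatFunc.X : RatFunc (ZMod p)) (b k i)))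
    (Polynomial.aeval (RatFunc.X : RatFunc (ZMod p)) r) (aeval_ne hr) T
    (fun t => ⟨RatFunc.C t, const_zmod D t⟩) ?_ y (fun t ht => hy2 t ht) (fun t ht => hy1 t ht)
  intro s _ t _ hst
  have h1 : (RatFunc.C s : RatFunc (ZMod p)) = RatFunc.C t := congrArg Subtype.val hst
  exact RatFunc.C_injective h1

end Pool.Agent.TH924.PC
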