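import Mathlib
import Pool.Agent.Helper923.HMertens

set_option autoImplicit false

/-!
A weighted form of Gallagher's larger sieve, and a second moment bound.
-/

namespace Pool.Agent.TH924.PC

open Finset

/-- The pairs of `S` which are congruent modulo `p`. -/
def prs (S : Finset ℤ) (p : ℕ) : Finset (ℤ × ℤ) :=
  (S ×ˢ S).filter fun x => (x.1 : ZMod p) = (x.2 : ZMod p)

lemma prs_mono {S T : Finset ℤ} (h : S ⊆ T) (p : ℕ) : (prs S p).card ≤ (prs T p).card := by
  refine card_le_card ?_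
  intro x hx
  simp only [prs, mem_filter, mem_product] at hx ⊢
  exact ⟨⟨h hx.1.1, h hx.1.2⟩, hx.2⟩

lemma cs_classes (S : Finset ℤ) (p : ℕ) :
    (S.card : ℝ) ^ 2 ≤ ((S.image fun q : ℤ => (q : ZMod p)).card : ℝ) * (prs S p).card := by
  classical
  set I := S.image fun q : ℤ => (q : ZMod p) with hI
  have h1 : (S.card : ℝ) = ∑ a ∈ I, ((S.filter fun q : ℤ => (q : ZMod p) = a).card : ℝ) := by
    rw [← Nat.cast_sum]
    congr 1
    exact card_eq_sum_card_fiberwise fun q hq => mem_image_of_mem _ hq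
  have h2 : ((prs S p).card : ℝ) = ∑ a ∈ I, ((S.filter fun q : ℤ => (q : ZMod p) = a).card : ℝ) ^ 2 := by
    have h3 : (prs S p).card = ∑ a ∈ I, ((prs S p).filter fun x => (x.1 : ZMod p) = a).card := by
      refine card_eq_sum_card_fiberwise fun x hx => ?_
      have hx' : x ∈ prs S p := hx
      simp only [prs, mem_filter, mem_product] at hx'
      exact mem_image_of_mem (fun q : ℤ => (q : ZMod p)) hx'.1.1
    rw [h3, Nat.cast_sum]
    refine sum_congr rfl fun a _ => ?_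
    have h4 : (prs S p).filter (fun x => (x.1 : ZMod p) = a) =
        (S.filter fun q : ℤ => (q : ZMod p) = a) ×ˢ (S.filter fun q : ℤ => (q : ZMod p) = a) := by
      ext x
      simp only [prs, mem_filter, mem_product]
      constructor
      · rintro ⟨⟨⟨h1, h2⟩, h3⟩, h4⟩
        exact ⟨⟨h1, h4⟩, h2, h3 ▸ h4⟩
      · rintro ⟨⟨h1, h4⟩, h2, h3⟩
        exact ⟨⟨⟨h1, h2⟩, h4.trans h3.symm⟩, h4⟩
    rw [h4, card_product]
    push_cast
    ring
  rw [h1, h2]
  exact sq_sum_le_card_mul_sum_sq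

lemma sum_log_dvd {P : Finset ℕ} (hP : ∀ p ∈ P, p.Prime) {m : ℕ} (hm : m ≠ 0) :
    ∑ p ∈ P.filter (· ∣ m), Real.log p ≤ Real.log m := by
  have h0 : ∀ p ∈ P.filter (· ∣ m), (p : ℝ) ≠ 0 := by
    intro p hp
    rw [mem_filter] at hp
    exact_mod_cast (hP p hp.1).ne_zero
  rw [← Real.log_prod h0]
  have h1 : ∏ p ∈ P.filter (· ∣ m), p ∣ m := by
    refine Finset.prod_primes_dvd m ?_ ?_
    · intro p hp
      rw [mem_filter] at hp
      exact (hP p hp.1).prime
    · intro p hp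
      rw [mem_filter] at hp
      exact hp.2
  have h2 : ∏ p ∈ P.filter (· ∣ m), p ≤ m := Nat.le_of_dvd (Nat.pos_of_ne_zero hm) h1
  refine Real.log_le_log ?_ ?_
  · refine prod_pos fun p hp => ?_
    rw [mem_filter] at hp
    exact_mod_cast (hP p hp.1).pos
  · rw [← Nat.cast_prod]
    exact Nat.cast_le.2 h2

lemma pairs_le {P : Finset ℕ} (hP : ∀ p ∈ P, p.Prime) {S : Finset ℤ} {X : ℝ} (hX : 1 ≤ X)
    (hS : ∀ q ∈ S, |(q : ℝ)| ≤ X) :
    ∑ p ∈ P, Real.log p * (prs S p).card ≤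
      (S.card : ℝ) ^ 2 * Real.log (2 * X) + S.card * ∑ p ∈ P, Real.log p := by
  classical
  have h1 : ∀ p ∈ P, Real.log p * (prs S p).card =
      ∑ x ∈ S ×ˢ S, if (x.1 : ZMod p) = (x.2 : ZMod p) then Real.log p else 0 := by
    intro p _
    rw [prs, card_filter, Nat.cast_sum, mul_sum]
    refine sum_congr rfl fun x _ => ?_
    split_ifs <;> simp
  rw [sum_congr rfl h1, sum_comm]
  have hlog : 0 ≤ Real.log (2 * X) := Real.log_nonneg (by linarith)
  have h2 : ∀ x ∈ S ×ˢ S, (∑ p ∈ P, if (x.1 : ZMod p) = (x.2 : ZMod p) then Real.log p else 0) ≤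
      Real.log (2 * X) + if x.1 = x.2 then ∑ p ∈ P, Real.log p else 0 := by
    intro x hx
    rw [mem_product] at hx
    split_ifs with h
    · rw [h]; simp [hlog]
    · rw [add_zero, ← sum_filter]
      have hm : (x.1 - x.2).natAbs ≠ 0 := by
        rw [Int.natAbs_ne_zero]
        exact sub_ne_zero.2 h
      have h3 : P.filter (fun p => (x.1 : ZMod p) = (x.2 : ZMod p)) =
          P.filter (· ∣ (x.1 - x.2).natAbs) := by
        refine filter_congr fun p _ => ?_
        rw [← sub_eq_zero, ← Int.cast_sub, ZMod.intCast_zmod_eq_zero_iff_dvd, Int.natCast_dvd]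
      rw [h3]
      refine (sum_log_dvd hP hm).trans ?_
      refine Real.log_le_log (by exact_mod_cast Nat.pos_of_ne_zero hm) ?_
      rw [Nat.cast_natAbs, Int.cast_abs, Int.cast_sub]
      have := hS _ hx.1
      have := hS _ hx.2
      have := abs_sub (x.1 : ℝ) (x.2 : ℝ)
      linarith
  refine (sum_le_sum h2).trans ?_
  rw [sum_add_distrib, sum_const, card_product, nsmul_eq_mul]
  have h4 : ∑ x ∈ S ×ˢ S, (if x.1 = x.2 then ∑ p ∈ P, Real.log p else 0) =
      S.card * ∑ p ∈ P, Real.log p := by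
    rw [sum_product]
    simp only [sum_ite_eq, sum_ite_mem, inter_self, sum_const, nsmul_eq_mul]
  rw [h4]
  push_cast
  nlinarith


/-- At most `d p / n` classes. -/
def Cls (A : ℕ → ℤ → Prop) (n d P₁ : ℕ) : Prop :=
  ∀ p : ℕ, p.Prime → P₁ < p → ∀ T : Finset (ZMod p),
    (∀ t ∈ T, ∃ q : ℤ, (q : ZMod p) = t ∧ A p q) → T.card * n ≤ d * p

open Classical in
/-- The weighted larger sieve. -/
lemma weighted {A : ℕ → ℤ → Prop} {n d P₁ : ℕ} (hA : Cls A n d P₁)
    {P : Finset ℕ} (hP : ∀ p ∈ P, p.Prime ∧ P₁ < p) {S : Finset ℤ} {X V W : ℝ} (hX : 1 ≤ X)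
    (hS : ∀ q ∈ S, |(q : ℝ)| ≤ X) (hV : 0 ≤ V)
    (hW : ∑ p ∈ P, Real.log p / p ≤ W)
    (hSV : ∀ q ∈ S, V ≤ ∑ p ∈ P with A p q, Real.log p / p) :
    (S.card : ℝ) * (n * V ^ 2 - W * d * Real.log (2 * X)) ≤ W * d * ∑ p ∈ P, Real.log p := by
  classical
  rcases Nat.eq_zero_or_pos S.card with h0 | hpos
  · rw [h0]
    have : 0 ≤ ∑ p ∈ P, Real.log p := sum_nonneg fun p hp => Real.log_natCast_nonneg p
    have h2 : 0 ≤ ∑ p ∈ P, Real.log p / p :=
      sum_nonneg fun p hp => div_nonneg (Real.log_natCast_nonneg p) (Nat.cast_nonneg p)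
    have h3 : 0 ≤ W := h2.trans hW
    simp only [Nat.cast_zero, zero_mul]
    positivity
  have hw0 : ∀ p ∈ P, 0 ≤ Real.log p / p := fun p _ =>
    div_nonneg (Real.log_natCast_nonneg p) (Nat.cast_nonneg p)
  -- the subset of good parameters for `p`
  set Sp : ℕ → Finset ℤ := fun p => S.filter fun q => A p q with hSp
  have h1 : (S.card : ℝ) * V ≤ ∑ p ∈ P, Real.log p / p * (Sp p).card := by
    calc (S.card : ℝ) * V = ∑ q ∈ S, V := by rw [sum_const, nsmul_eq_mul]
      _ ≤ ∑ q ∈ S, ∑ p ∈ P with A p q, Real.log p / p := sum_le_sum hSV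
      _ = ∑ q ∈ S, ∑ p ∈ P, if A p q then Real.log p / p else 0 := by
          refine sum_congr rfl fun q _ => ?_
          rw [sum_filter]
      _ = ∑ p ∈ P, ∑ q ∈ S, if A p q then Real.log p / p else 0 := sum_comm
      _ = ∑ p ∈ P, Real.log p / p * (Sp p).card := by
          refine sum_congr rfl fun p _ => ?_
          rw [← sum_filter, sum_const, nsmul_eq_mul]
          ring
  have h2 : (∑ p ∈ P, Real.log p / p * (Sp p).card) ^ 2 ≤
      W * ∑ p ∈ P, Real.log p / p * ((Sp p).card : ℝ) ^ 2 := by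
    have h := sum_mul_sq_le_sq_mul_sq P (fun p => Real.sqrt (Real.log p / p))
      (fun p => Real.sqrt (Real.log p / p) * (Sp p).card)
    have e1 : ∑ p ∈ P, Real.sqrt (Real.log p / p) * (Real.sqrt (Real.log p / p) * (Sp p).card) =
        ∑ p ∈ P, Real.log p / p * (Sp p).card := by
      refine sum_congr rfl fun p hp => ?_
      rw [← mul_assoc, Real.mul_self_sqrt (hw0 p hp)]
    have e2 : ∑ p ∈ P, Real.sqrt (Real.log p / p) ^ 2 = ∑ p ∈ P, Real.log p / p := by
      refine sum_congr rfl fun p hp => ?_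
      rw [Real.sq_sqrt (hw0 p hp)]
    have e3 : ∑ p ∈ P, (Real.sqrt (Real.log p / p) * (Sp p).card) ^ 2 =
        ∑ p ∈ P, Real.log p / p * ((Sp p).card : ℝ) ^ 2 := by
      refine sum_congr rfl fun p hp => ?_
      rw [mul_pow, Real.sq_sqrt (hw0 p hp)]
    rw [e1, e2, e3] at h
    refine h.trans (mul_le_mul_of_nonneg_right hW ?_)
    exact sum_nonneg fun p hp => mul_nonneg (hw0 p hp) (sq_nonneg _)
  have h3 : ∀ p ∈ P, n * (Real.log p / p * ((Sp p).card : ℝ) ^ 2) ≤
      d * (Real.log p * (prs S p).card) := by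
    intro p hp
    have hp0 : (0 : ℝ) < p := by exact_mod_cast (hP p hp).1.pos
    have hlog : 0 ≤ Real.log (p : ℝ) := Real.log_natCast_nonneg p
    have hcs := cs_classes (Sp p) p
    have hcl : (((Sp p).image fun q : ℤ => (q : ZMod p)).card : ℝ) * n ≤ d * p := by
      have := hA p (hP p hp).1 (hP p hp).2 ((Sp p).image fun q : ℤ => (q : ZMod p)) (by
        intro t ht
        rw [mem_image] at ht
        obtain ⟨q, hq, rfl⟩ := ht
        exact ⟨q, rfl, (mem_filter.1 hq).2⟩)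
      exact_mod_cast this
    have hmono : ((prs (Sp p) p).card : ℝ) ≤ (prs S p).card := by
      exact_mod_cast prs_mono (filter_subset _ _) p
    have h4 : (n : ℝ) * ((Sp p).card : ℝ) ^ 2 ≤ d * p * (prs S p).card := by
      calc (n : ℝ) * ((Sp p).card : ℝ) ^ 2
          ≤ n * ((((Sp p).image fun q : ℤ => (q : ZMod p)).card : ℝ) * (prs (Sp p) p).card) :=
            mul_le_mul_of_nonneg_left hcs (Nat.cast_nonneg n)
        _ = ((((Sp p).image fun q : ℤ => (q : ZMod p)).card : ℝ) * n) * (prs (Sp p) p).card := by ring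
        _ ≤ (d * p) * (prs (Sp p) p).card := mul_le_mul_of_nonneg_right hcl (Nat.cast_nonneg _)
        _ ≤ (d * p) * (prs S p).card := mul_le_mul_of_nonneg_left hmono (by positivity)
    calc n * (Real.log p / p * ((Sp p).card : ℝ) ^ 2)
        = Real.log p / p * (n * ((Sp p).card : ℝ) ^ 2) := by ring
      _ ≤ Real.log p / p * (d * p * (prs S p).card) := mul_le_mul_of_nonneg_left h4 (hw0 p hp)
      _ = d * (Real.log p * (prs S p).card) := by field_simp
  have h4 := pairs_le (fun p hp => (hP p hp).1) hX hS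
  have hW0 : 0 ≤ W := (sum_nonneg hw0).trans hW
  have h5 : (n : ℝ) * ∑ p ∈ P, Real.log p / p * ((Sp p).card : ℝ) ^ 2 ≤
      d * ((S.card : ℝ) ^ 2 * Real.log (2 * X) + S.card * ∑ p ∈ P, Real.log p) := by
    calc (n : ℝ) * ∑ p ∈ P, Real.log p / p * ((Sp p).card : ℝ) ^ 2
        = ∑ p ∈ P, n * (Real.log p / p * ((Sp p).card : ℝ) ^ 2) := by rw [mul_sum]
      _ ≤ ∑ p ∈ P, d * (Real.log p * (prs S p).card) := sum_le_sum h3
      _ = d * ∑ p ∈ P, Real.log p * (prs S p).card := by rw [mul_sum]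
      _ ≤ _ := mul_le_mul_of_nonneg_left h4 (Nat.cast_nonneg d)
  have hs0 : (0 : ℝ) < S.card := by exact_mod_cast hpos
  have h6 : (n : ℝ) * ((S.card : ℝ) * V) ^ 2 ≤
      W * (d * ((S.card : ℝ) ^ 2 * Real.log (2 * X) + S.card * ∑ p ∈ P, Real.log p)) := by
    have h7 : ((S.card : ℝ) * V) ^ 2 ≤ (∑ p ∈ P, Real.log p / p * (Sp p).card) ^ 2 := by
      have : 0 ≤ (S.card : ℝ) * V := by positivity
      exact pow_le_pow_left₀ this h1 2
    calc (n : ℝ) * ((S.card : ℝ) * V) ^ 2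
        ≤ n * (W * ∑ p ∈ P, Real.log p / p * ((Sp p).card : ℝ) ^ 2) :=
          mul_le_mul_of_nonneg_left (h7.trans h2) (Nat.cast_nonneg n)
      _ = W * (n * ∑ p ∈ P, Real.log p / p * ((Sp p).card : ℝ) ^ 2) := by ring
      _ ≤ _ := mul_le_mul_of_nonneg_left h5 hW0
  have h8 : (S.card : ℝ) * ((S.card : ℝ) * (n * V ^ 2 - W * d * Real.log (2 * X))) ≤
      S.card * (W * d * ∑ p ∈ P, Real.log p) := by nlinarith
  exact le_of_mul_le_mul_left h8 hs0

end Pool.Agent.TH924.PC
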